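import Pool.Agent.TH829.PC.Op2
import Pool.Agent.W280.PE.Affine4
import Pool.Agent.TH190.E8.Affine6

set_option autoImplicit false
set_option maxHeartbeats 4000000

/-!
Fuchsian operators of order four and six with three singular points with non-integral exponents, one
of them at infinity (helper829).
-/

namespace Pool.Agent.TH829.PC

open Finset Polynomial Pool.Agent.W280.PC Pool.Agent.W280.PE Pool.Agent.W432.WB
open Pool.Agent.TH190.E8 (Two Three good_perm tri tri0 tri1 tri2 dbl dbl_div y3_eq y3 sum_perm3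
  arith8 sum_tri fin3)

universe u

/-- the data for the three points -/
theorem good_pts {F : Type u} [Field F] [CharZero F] {m n : ℕ} [NeZero n]
    (b : Fin (n + 1) → ℤ[X]) (hb : b (Fin.last n) ≠ 0) (α : Fin m → F) (Q : Fin (n + 1) → F[X])
    (hF : IsFuchs b α Q) (N : ℕ) (hN : 1 < N) (E : Option (Fin m) → Fin n → ℤ)
    (hE : HasExps α Q (fun j l => (E (some j) l : ℚ) / N) (fun l => -(E none l : ℚ) / N))
    (P : Fin 3 → Option (Fin m)) (hP : Function.Injective P) (hinf : ∃ i, P i = none)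
    (hint : ∀ x, x ∉ Set.range P → ∀ l, (N : ℤ) ∣ E x l)
    (hno : ¬ ∃ a : ℤ, IsCoprime a (N : ℤ) ∧ ∃ P₀ : ℕ, ∀ p : ℕ, P₀ < p → (N : ℤ) ∣ a * p + 1 →
      ∀ _hp : Fact p.Prime, ¬ FullMod b p) (a : ℤ) (ha : IsCoprime a (N : ℤ)) :
    ∃ X Y C, Good N (E (P 0)) (E (P 1)) (E (P 2)) a X Y C := by
  obtain ⟨i, hi⟩ := hinf
  set p : Equiv.Perm (Fin 3) := Equiv.swap 2 i with hp
  have hp2 : P (p 2) = none := by rw [hp, Equiv.swap_apply_left, hi]
  have hne : ∀ j : Fin 3, j ≠ 2 → P (p j) ≠ none := by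
    intro j hj h
    rw [← hp2] at h
    exact hj (p.injective (hP h))
  obtain ⟨j0, hj0⟩ := Option.ne_none_iff_exists'.1 (hne 0 (by decide))
  obtain ⟨j1, hj1⟩ := Option.ne_none_iff_exists'.1 (hne 1 (by decide))
  have h01 : j0 ≠ j1 := by
    rintro rfl
    rw [← hj1] at hj0
    have := p.injective (hP hj0)
    exact absurd this (by decide)
  have hg := good_op b hb α Q hF N hN (fun j => E (some j)) (E none) hE h01 (by
    intro j h0 h1 l
    refine hint _ ?_ l
    rintro ⟨k, hk⟩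
    obtain ⟨k', rfl⟩ := p.surjective k
    rcases fin3 k' with rfl | rfl | rfl
    · rw [hj0] at hk; exact h0 (Option.some.inj hk).symm
    · rw [hj1] at hk; exact h1 (Option.some.inj hk).symm
    · rw [hp2] at hk; exact absurd hk (by simp)) hno a ha
  have h1 : ∃ X Y C, Good N ((fun k => E (P (p k))) 0) ((fun k => E (P (p k))) 1)
      ((fun k => E (P (p k))) 2) a X Y C := by
    simp only [hj0, hj1, hp2]
    exact hg
  have h2 := good_perm (e := fun k => E (P (p k))) h1 p⁻¹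
  simpa using h2

theorem arith4 (N : ℕ) (hN : 1 < N) (e : Fin 3 → Fin 4 → ℤ)
    (j : Fin 3) (hj0 : (N : ℤ) ∣ e j 0 - e j 1) (hj1 : (N : ℤ) ∣ e j 2 - e j 3)
    (h1 : ∀ j l l', IsCoprime (e j l - e j l') (N : ℤ) ∨ (N : ℤ) ∣ e j l - e j l')
    (h2 : ∀ κ : Fin 3 → Fin 4, IsCoprime (∑ i, e i (κ i)) (N : ℤ))
    (h3 : ∀ κ κ' : Fin 3 → Fin 4, (∀ i, κ i ≠ κ' i) → κ j < 2 → 2 ≤ κ' j →
      IsCoprime (∑ i, e i (κ i) + ∑ i, e i (κ' i)) (N : ℤ))
    (hg : ∀ a : ℤ, IsCoprime a (N : ℤ) → ∃ X Y C, Good N (e 0) (e 1) (e 2) a X Y C) : False := by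
  fin_cases j
  · -- the special point is the first
    refine arith7 hN (e1 := e 1) (e2 := e 2) (e3 := e 0) hj0 hj1 (h1 1) (h1 2) (h1 0 0 2)
      (fun i k => ?_) (fun i k => ?_) (fun i i' k k' hi hk => ?_) (fun a ha => ?_)
    · have := h2 ![0, i, k]
      rw [Fin.sum_univ_three] at this
      simp only [Matrix.cons_val_zero, Matrix.cons_val_one, Matrix.cons_val] at this
      rwa [show e 0 0 + e 1 i + e 2 k = e 1 i + e 2 k + e 0 0 by ring] at this
    · have := h2 ![2, i, k]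
      rw [Fin.sum_univ_three] at this
      simp only [Matrix.cons_val_zero, Matrix.cons_val_one, Matrix.cons_val] at this
      rwa [show e 0 2 + e 1 i + e 2 k = e 1 i + e 2 k + e 0 2 by ring] at this
    · have := h3 ![0, i, k] ![2, i', k'] (by
        intro t
        fin_cases t
        · exact (by decide : (0 : Fin 4) ≠ 2)
        · exact hi
        · exact hk) (by simp) (by simp)
      rw [Fin.sum_univ_three, Fin.sum_univ_three] at this
      simp only [Matrix.cons_val_zero, Matrix.cons_val_one, Matrix.cons_val] at this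
      rwa [show e 0 0 + e 1 i + e 2 k + (e 0 2 + e 1 i' + e 2 k') =
        (e 1 i + e 1 i') + (e 2 k + e 2 k') + (e 0 0 + e 0 2) by ring] at this
    · obtain ⟨X, Y, C, h⟩ := hg a ha
      exact ⟨Y, C, X, h.rot⟩
  · refine arith7 hN (e1 := e 2) (e2 := e 0) (e3 := e 1) hj0 hj1 (h1 2) (h1 0) (h1 1 0 2)
      (fun i k => ?_) (fun i k => ?_) (fun i i' k k' hi hk => ?_) (fun a ha => ?_)
    · have := h2 ![k, 0, i]
      rw [Fin.sum_univ_three] at this
      simp only [Matrix.cons_val_zero, Matrix.cons_val_one, Matrix.cons_val] at this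
      rwa [show e 0 k + e 1 0 + e 2 i = e 2 i + e 0 k + e 1 0 by ring] at this
    · have := h2 ![k, 2, i]
      rw [Fin.sum_univ_three] at this
      simp only [Matrix.cons_val_zero, Matrix.cons_val_one, Matrix.cons_val] at this
      rwa [show e 0 k + e 1 2 + e 2 i = e 2 i + e 0 k + e 1 2 by ring] at this
    · have := h3 ![k, 0, i] ![k', 2, i'] (by
        intro t
        fin_cases t
        · exact hk
        · exact (by decide : (0 : Fin 4) ≠ 2)
        · exact hi) (by simp) (by simp)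
      rw [Fin.sum_univ_three, Fin.sum_univ_three] at this
      simp only [Matrix.cons_val_zero, Matrix.cons_val_one, Matrix.cons_val] at this
      rwa [show e 0 k + e 1 0 + e 2 i + (e 0 k' + e 1 2 + e 2 i') =
        (e 2 i + e 2 i') + (e 0 k + e 0 k') + (e 1 0 + e 1 2) by ring] at this
    · obtain ⟨X, Y, C, h⟩ := hg a ha
      exact ⟨C, X, Y, h.rot.rot⟩
  · refine arith7 hN (e1 := e 0) (e2 := e 1) (e3 := e 2) hj0 hj1 (h1 0) (h1 1) (h1 2 0 2)
      (fun i k => ?_) (fun i k => ?_) (fun i i' k k' hi hk => ?_) (fun a ha => ?_)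
    · have := h2 ![i, k, 0]
      rw [Fin.sum_univ_three] at this
      simpa only [Matrix.cons_val_zero, Matrix.cons_val_one, Matrix.cons_val] using this
    · have := h2 ![i, k, 2]
      rw [Fin.sum_univ_three] at this
      simpa only [Matrix.cons_val_zero, Matrix.cons_val_one, Matrix.cons_val] using this
    · have := h3 ![i, k, 0] ![i', k', 2] (by
        intro t
        fin_cases t
        · exact hi
        · exact hk
        · exact (by decide : (0 : Fin 4) ≠ 2)) (by simp) (by simp)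
      rw [Fin.sum_univ_three, Fin.sum_univ_three] at this
      simp only [Matrix.cons_val_zero, Matrix.cons_val_one, Matrix.cons_val] at this
      rwa [show e 0 i + e 1 k + e 2 0 + (e 0 i' + e 1 k' + e 2 2) =
        (e 0 i + e 0 i') + (e 1 k + e 1 k') + (e 2 0 + e 2 2) by ring] at this
    · exact hg a ha


theorem arith6 (N : ℕ) (hN : 1 < N) (e : Fin 3 → Fin 6 → ℤ)
    (p : Equiv.Perm (Fin 3))
    (hp1 : ∀ l l' : Fin 6, (l : ℕ) / 2 = (l' : ℕ) / 2 → (N : ℤ) ∣ e (p 1) l - e (p 1) l')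
    (hp2 : ∀ l l' : Fin 6, (l : ℕ) / 3 = (l' : ℕ) / 3 → (N : ℤ) ∣ e (p 2) l - e (p 2) l')
    (h1 : ∀ i l l', IsCoprime (e i l - e i l') (N : ℤ) ∨ (N : ℤ) ∣ e i l - e i l')
    (h2 : ∀ κ : Fin 3 → Fin 6, IsCoprime (∑ i, e i (κ i)) (N : ℤ))
    (h3 : ∀ κ κ' : Fin 3 → Fin 6, Two p κ κ' →
      IsCoprime (∑ i, e i (κ i) + ∑ i, e i (κ' i)) (N : ℤ))
    (h4 : ∀ κ κ' κ'' : Fin 3 → Fin 6, Three p κ κ' κ'' →
      IsCoprime (∑ i, e i (κ i) + ∑ i, e i (κ' i) + ∑ i, e i (κ'' i)) (N : ℤ))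
    (hg : ∀ a : ℤ, IsCoprime a (N : ℤ) → ∃ X Y C, Good N (e 0) (e 1) (e 2) a X Y C) : False := by
  have ev : ∀ i j k : Fin 6, ∑ l, e l (tri p i j k l) = e (p 0) i + e (p 1) j + e (p 2) k := by
    intro i j k
    rw [sum_perm3 p (fun l => e l (tri p i j k l))]
    simp only [tri0, tri1, tri2]
  refine arith8 hN (e1 := e (p 0)) (e2 := e (p 1)) (e3 := e (p 2)) (hp1 0 1 rfl) (hp1 2 3 rfl)
    (hp1 4 5 rfl) (hp2 0 1 rfl) (hp2 0 2 rfl) (hp2 3 4 rfl) (hp2 3 5 rfl) (h1 _) (h1 _) (h1 _ _ _)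
    (fun i j => ?_) (fun i j => ?_) (fun i i' k k' hi hk => ?_) (fun T hT => ?_)
    (fun a ha => good_perm (hg a ha) p)
  · have := h2 (tri p i (dbl j) 0)
    rw [ev] at this
    rwa [y3_eq]
  · have := h2 (tri p i (dbl j) 3)
    rw [ev] at this
    rwa [y3_eq]
  · have := h3 (tri p i (dbl k) 0) (tri p i' (dbl k') 3) (by
      unfold Two
      simp only [tri0, tri1, tri2, dbl_div]
      refine ⟨hi, fun h => hk (Fin.ext h), by decide⟩)
    rw [ev, ev] at this
    rw [y3_eq, y3_eq]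
    rwa [show e (p 0) i + e (p 1) (dbl k) + e (p 2) 0 + (e (p 0) i' + e (p 1) (dbl k') +
      e (p 2) 3) = (e (p 0) i + e (p 0) i') + (e (p 1) (dbl k) + e (p 1) (dbl k')) +
      (e (p 2) 0 + e (p 2) 3) by ring] at this
  · obtain ⟨i, j, k, hij, hik, hjk, rfl⟩ := Finset.card_eq_three.1 (Finset.mem_powersetCard.1 hT).2
    rw [sum_tri _ hij hik hjk, Fin.sum_univ_three]
    constructor
    · have := h4 (tri p i (dbl 0) 0) (tri p j (dbl 1) 0) (tri p k (dbl 2) 3) (by
        unfold Three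
        simp only [tri0, tri1, tri2, dbl_div]
        exact ⟨⟨hij, hik, hjk⟩, by decide, by decide⟩)
      rw [ev, ev, ev] at this
      rw [y3_eq, y3_eq, y3_eq]
      rwa [show e (p 0) i + e (p 1) (dbl 0) + e (p 2) 0 + (e (p 0) j + e (p 1) (dbl 1) +
        e (p 2) 0) + (e (p 0) k + e (p 1) (dbl 2) + e (p 2) 3) = e (p 0) i + e (p 0) j +
        e (p 0) k + (e (p 1) (dbl 0) + e (p 1) (dbl 1) + e (p 1) (dbl 2)) +
        (2 * e (p 2) 0 + e (p 2) 3) by ring] at this
    · have := h4 (tri p i (dbl 0) 3) (tri p j (dbl 1) 3) (tri p k (dbl 2) 0) (by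
        unfold Three
        simp only [tri0, tri1, tri2, dbl_div]
        exact ⟨⟨hij, hik, hjk⟩, by decide, by decide⟩)
      rw [ev, ev, ev] at this
      rw [y3_eq, y3_eq, y3_eq]
      rwa [show e (p 0) i + e (p 1) (dbl 0) + e (p 2) 3 + (e (p 0) j + e (p 1) (dbl 1) +
        e (p 2) 3) + (e (p 0) k + e (p 1) (dbl 2) + e (p 2) 0) = e (p 0) i + e (p 0) j +
        e (p 0) k + (e (p 1) (dbl 0) + e (p 1) (dbl 1) + e (p 1) (dbl 2)) +
        (2 * e (p 2) 3 + e (p 2) 0) by ring] at this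


end Pool.Agent.TH829.PC
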