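import Pool.Agent.TH829.PC.Ineq

set_option autoImplicit false
set_option maxHeartbeats 4000000

/-!
The symmetric form of the inequalities in order three, and the removal of the points with integral
exponents (helper829).
-/

namespace Pool.Agent.TH829.PC

open Finset Pool.Agent.W280.PC

/-- an integer congruent to `-x` whose weight is complementary to the weight of `x` -/
def ng (N : ℕ) (x : ℤ) : ℤ := if (N : ℤ) ∣ x then (if x < 0 then 0 else -N) else -x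

lemma wI_ng {N : ℕ} (hN : 0 < N) {a : ℤ} (ha : IsCoprime a (N : ℤ)) (x : ℤ) :
    wI N a (ng N x) = N - wI N a x := by
  have hN' : (0 : ℤ) < N := by exact_mod_cast hN
  unfold ng
  by_cases hd : (N : ℤ) ∣ x
  · rw [if_pos hd]
    by_cases hx : x < 0
    · rw [if_pos hx]
      have h0 : wI N a 0 = 0 := by unfold wI; simp
      have h1 : wI N a x = N := by unfold wI; rw [if_pos ⟨hx, hd⟩]
      rw [h0, h1, sub_self]
    · rw [if_neg hx]
      unfold wI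
      rw [if_neg (show ¬ (x < 0 ∧ (N : ℤ) ∣ x) from fun h => hx h.1),
        if_pos (show (-(N : ℤ) < 0 ∧ (N : ℤ) ∣ -(N : ℤ)) from
          ⟨by omega, (dvd_neg (α := ℤ)).2 dvd_rfl⟩), Int.emod_eq_zero_of_dvd (hd.mul_left a)]
      simp
  · rw [if_neg hd]
    unfold wI
    rw [if_neg (show ¬ (x < 0 ∧ (N : ℤ) ∣ x) from fun h => hd h.2),
      if_neg (show ¬ (-x < 0 ∧ (N : ℤ) ∣ -x) from fun h => hd ((dvd_neg (α := ℤ)).1 h.2)), mul_neg]
    have h1 : ¬ (N : ℤ) ∣ a * x := by rwa [coprime_scale ha]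
    have h2 := emod_neg_add hN (a * x)
    rw [if_neg h1] at h2
    linarith

lemma ng_mod (N : ℕ) (x : ℤ) : (N : ℤ) ∣ ng N x + x := by
  unfold ng
  by_cases hd : (N : ℤ) ∣ x
  · rw [if_pos hd]
    by_cases hx : x < 0
    · rw [if_pos hx, zero_add]; exact hd
    · rw [if_neg hx]
      exact dvd_add ((dvd_neg (α := ℤ)).2 dvd_rfl) hd
  · rw [if_neg hd, neg_add_cancel]
    exact dvd_zero _

lemma extra {N : ℤ} {w : Fin 3 → ℤ} (hm : Monotone w) (hN : 0 < N)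
    (h : ∀ l, w l = 0 ∨ w l = N) :
    ∃ (k : Fin 3) (t : ℤ), (∑ l, w l) + ((k : ℕ) : ℤ) * N = 3 * t * N ∧ w k = t * N := by
  have h01 : w 0 ≤ w 1 := hm (by decide)
  have h12 : w 1 ≤ w 2 := hm (by decide)
  rw [Fin.sum_univ_three]
  rcases h 0 with h0 | h0 <;> rcases h 1 with h1 | h1 <;> rcases h 2 with h2 | h2
  · exact ⟨0, 0, by rw [h0, h1, h2]; simp, by rw [h0]; simp⟩
  · exact ⟨2, 1, by rw [h0, h1, h2]; simp; ring, by rw [h2]; simp⟩
  · exfalso; omega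
  · exact ⟨1, 1, by rw [h0, h1, h2]; simp; ring, by rw [h1]; simp⟩
  · exfalso; omega
  · exfalso; omega
  · exfalso; omega
  · exact ⟨0, 1, by rw [h0, h1, h2]; simp; ring, by rw [h0]; simp⟩

/-- removal of the points all of whose weights are `0` or `N` -/
theorem reduce {I : Type*} [Fintype I] [DecidableEq I] {N : ℤ} (hN : 0 < N) {W : I → Fin 3 → ℤ}
    (hW : ∀ x, Monotone (W x))
    (hI : ∀ (M q : ℤ) (κ : I → Fin 3), ∑ x, ∑ l, W x l = M * N →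
      M + ∑ x, ((κ x : ℕ) : ℤ) = 3 * q + 2 → ∑ x, W x (κ x) < q * N)
    (P : Fin 3 ↪ I) (hx : ∀ x, x ∉ Set.range P → ∀ l, W x l = 0 ∨ W x l = N)
    (M0 q : ℤ) (κ0 : Fin 3 → Fin 3) (hM : ∑ i, ∑ l, W (P i) l = M0 * N)
    (hq : M0 + ∑ i, ((κ0 i : ℕ) : ℤ) = 3 * q + 2) : ∑ i, W (P i) (κ0 i) < q * N := by
  classical
  have hex : ∀ x, ∃ (k : Fin 3) (t : ℤ), x ∉ Set.range P →
      ((∑ l, W x l) + ((k : ℕ) : ℤ) * N = 3 * t * N ∧ W x k = t * N) := by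
    intro x
    by_cases h : x ∈ Set.range P
    · exact ⟨0, 0, fun h' => absurd h h'⟩
    · obtain ⟨k, t, h1⟩ := extra (hW x) hN (hx x h)
      exact ⟨k, t, fun _ => h1⟩
  choose k t hkt using hex
  set κ : I → Fin 3 := Function.extend P κ0 k with hκ
  have hκP : ∀ i, κ (P i) = κ0 i := fun i => P.injective.extend_apply κ0 k i
  have hκx : ∀ x, x ∉ Set.range P → κ x = k x := fun x h => by
    rw [hκ, Function.extend_apply' _ _ _ (fun ⟨i, hi⟩ => h ⟨i, hi⟩)]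
  have hsplit : ∀ f : I → ℤ, ∑ x, f x = ∑ i, f (P i) + ∑ x ∈ (univ.map P)ᶜ, f x := by
    intro f
    rw [← Finset.sum_add_sum_compl (univ.map P) f, Finset.sum_map]
  have hmem : ∀ x, x ∈ (univ.map P)ᶜ → x ∉ Set.range P := by
    intro x h1 ⟨i, hi⟩
    rw [Finset.mem_compl] at h1
    exact h1 (Finset.mem_map.2 ⟨i, mem_univ _, hi⟩)
  have h1 : ∑ x, ∑ l, W x l = (M0 + ∑ x ∈ (univ.map P)ᶜ, (3 * t x - ((k x : ℕ) : ℤ))) * N := by
    rw [hsplit, hM, add_mul, Finset.sum_mul]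
    congr 1
    refine Finset.sum_congr rfl fun x h2 => ?_
    have := (hkt x (hmem x h2)).1
    linarith
  have h2 : (M0 + ∑ x ∈ (univ.map P)ᶜ, (3 * t x - ((k x : ℕ) : ℤ))) + ∑ x, ((κ x : ℕ) : ℤ) =
      3 * (q + ∑ x ∈ (univ.map P)ᶜ, t x) + 2 := by
    have ea : ∑ i, ((κ (P i) : ℕ) : ℤ) = ∑ i, ((κ0 i : ℕ) : ℤ) :=
      Finset.sum_congr rfl (fun i _ => by rw [hκP i])
    have eb : ∑ x ∈ (univ.map P)ᶜ, ((κ x : ℕ) : ℤ) = ∑ x ∈ (univ.map P)ᶜ, ((k x : ℕ) : ℤ) :=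
      Finset.sum_congr rfl (fun x h2 => by rw [hκx x (hmem x h2)])
    rw [hsplit, ea, eb, Finset.sum_sub_distrib, mul_add, Finset.mul_sum]
    linarith
  have h3 := hI _ _ κ h1 h2
  have ea : ∑ i, W (P i) (κ (P i)) = ∑ i, W (P i) (κ0 i) :=
    Finset.sum_congr rfl (fun i _ => by rw [hκP i])
  have eb : ∑ x ∈ (univ.map P)ᶜ, W x (κ x) = ∑ x ∈ (univ.map P)ᶜ, t x * N :=
    Finset.sum_congr rfl (fun x h2 => by
      rw [hκx x (hmem x h2)]; exact (hkt x (hmem x h2)).2)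
  rw [hsplit, ea, eb, ← Finset.sum_mul] at h3
  linarith

/-- the inequalities for three points give `Uni3` -/
theorem uni3_of {N : ℕ} {a : ℤ} {e1 e2 e3 f : Fin 3 → ℤ}
    (hf : ∀ l, wI N a (e3 l) = N - wI N a (f l)) (σ1 σ2 σ3 : Equiv.Perm (Fin 3))
    (m1 : Monotone fun l => wI N a (e1 (σ1 l))) (m2 : Monotone fun l => wI N a (e2 (σ2 l)))
    (m3 : Monotone fun l => wI N a (f (σ3 l)))
    (h : ∀ (M q : ℤ) (i j k : Fin 3), ∑ l, wI N a (e1 l) + ∑ l, wI N a (e2 l) +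
      ∑ l, wI N a (f l) = M * N → M + ((i : ℕ) + (j : ℕ) + (k : ℕ) : ℤ) = 3 * q + 2 →
      wI N a (e1 (σ1 i)) + wI N a (e2 (σ2 j)) + wI N a (f (σ3 k)) < q * N) :
    Uni3 N e1 e2 e3 a := by
  refine ⟨σ1, σ2, Fin.revPerm.trans σ3, m1, m2, ?_, ?_⟩
  · intro x y hxy
    simp only [Equiv.trans_apply, Fin.revPerm_apply, hf]
    have := m3 (Fin.rev_le_rev.2 hxy)
    simp only at this
    linarith
  · intro m q i j s hm hq
    simp only [Equiv.trans_apply, Fin.revPerm_apply, hf] at hm ⊢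
    have h1 := h (m + 3) (q + 1) i j (Fin.rev s) (by
      rw [Finset.sum_sub_distrib] at hm
      simp only [Finset.sum_const, Finset.card_univ, Fintype.card_fin, nsmul_eq_mul] at hm
      push_cast at hm
      linarith) (by
      have h2 : ((Fin.rev s : Fin 3) : ℕ) = 2 - (s : ℕ) := by
        rw [Fin.val_rev]; omega
      have h3 : (s : ℕ) ≤ 2 := by omega
      rw [h2]
      push_cast [Nat.cast_sub h3]
      linarith)
    linarith

lemma wI_shift {N : ℕ} {x : ℤ} (hx : ¬ (N : ℤ) ∣ x) (a K : ℤ) :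
    wI N a (x + K * N) = wI N a x := by
  have h1 : ¬ (N : ℤ) ∣ x + K * N := fun h => hx ((Int.dvd_add_left (Dvd.intro_left K rfl)).1 h)
  unfold wI
  rw [if_neg (fun h => h1 h.2), if_neg (fun h => hx h.2), mul_add, ← mul_assoc,
    Int.add_mul_emod_self_right]

/-- changing one exponent that is not integral -/
lemma adj_one {N : ℕ} (e : Fin 3 → ℤ) (K : ℤ) (hx : ∃ i, ¬ (N : ℤ) ∣ e i) :
    ∃ e' : Fin 3 → ℤ, (∀ l, (N : ℤ) ∣ e' l - e l) ∧ (∀ a l, wI N a (e' l) = wI N a (e l)) ∧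
      ∑ l, e' l = ∑ l, e l + K * N := by
  obtain ⟨i, hi⟩ := hx
  refine ⟨Function.update e i (e i + K * N), ?_, ?_, ?_⟩
  · intro l
    by_cases h : l = i
    · subst h
      rw [Function.update_self]
      exact ⟨K, by ring⟩
    · rw [Function.update_of_ne h]; simp
  · intro a l
    by_cases h : l = i
    · subst h
      rw [Function.update_self, wI_shift hi]
    · rw [Function.update_of_ne h]
  · rw [Finset.sum_update_of_mem (mem_univ i), ← Finset.add_sum_erase univ e (mem_univ i),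
      Finset.sdiff_singleton_eq_erase]
    ring

theorem adj {N : ℕ} {e1 e2 e3 : Fin 3 → ℤ} (hs : (N : ℤ) ∣ ∑ l, e1 l + ∑ l, e2 l - ∑ l, e3 l)
    (hx : (∃ i, ¬ (N : ℤ) ∣ e1 i) ∨ (∃ i, ¬ (N : ℤ) ∣ e2 i) ∨ (∃ i, ¬ (N : ℤ) ∣ e3 i)) :
    ∃ e1' e2' e3' : Fin 3 → ℤ,
      ((∀ l, (N : ℤ) ∣ e1' l - e1 l) ∧ (∀ a l, wI N a (e1' l) = wI N a (e1 l))) ∧
      ((∀ l, (N : ℤ) ∣ e2' l - e2 l) ∧ (∀ a l, wI N a (e2' l) = wI N a (e2 l))) ∧
      ((∀ l, (N : ℤ) ∣ e3' l - e3 l) ∧ (∀ a l, wI N a (e3' l) = wI N a (e3 l))) ∧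
      ∑ l, e1' l + ∑ l, e2' l = ∑ l, e3' l := by
  obtain ⟨K, hK⟩ := hs
  have triv : ∀ e : Fin 3 → ℤ, (∀ l, (N : ℤ) ∣ e l - e l) ∧ (∀ a l, wI N a (e l) = wI N a (e l)) :=
    fun e => ⟨fun l => by simp, fun a l => rfl⟩
  rcases hx with h | h | h
  · obtain ⟨e', h1, h2, h3⟩ := adj_one e1 (-K) h
    exact ⟨e', e2, e3, ⟨h1, h2⟩, triv _, triv _, by rw [h3]; linarith⟩
  · obtain ⟨e', h1, h2, h3⟩ := adj_one e2 (-K) h
    exact ⟨e1, e', e3, triv _, ⟨h1, h2⟩, triv _, by rw [h3]; linarith⟩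
  · obtain ⟨e', h1, h2, h3⟩ := adj_one e3 K h
    exact ⟨e1, e2, e', triv _, triv _, ⟨h1, h2⟩, by rw [h3]; linarith⟩

lemma cop_congr {N : ℤ} {x y : ℤ} (h : N ∣ x - y) (hy : IsCoprime y N) : IsCoprime x N := by
  obtain ⟨c, hc⟩ := h
  have : x = y + N * c := by linarith
  rw [this]
  exact hy.add_mul_left_left c

end Pool.Agent.TH829.PC
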