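import Pool.Agent.TH829.PC.Aff
import Pool.Agent.TH829.PC.Sym

set_option autoImplicit false
set_option maxHeartbeats 4000000

/-!
A uniform formulation of the arithmetic theorems for the affine types with three arms of different
lengths (helper829).
-/

namespace Pool.Agent.TH829.PC

open Finset Pool.Agent.W280.PC Pool.Agent.W280.PE
open Pool.Agent.TH190.E8 (y3_eq dbl arith8 fin3 sum_tri)

/-- The sum of the squares of the numbers of elements of `S` in the `k` consecutive blocks of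
`n / k` elements. -/
def sq (k n : ℕ) (S : Finset (Fin n)) : ℕ :=
  ∑ j ∈ Finset.range k, (S.filter fun l : Fin n => (l : ℕ) / (n / k) = j).card ^ 2

lemma arms {k : Fin 3 → ℕ} (h0 : 0 < k 2) (h12 : k 2 ≤ k 1) (h01 : k 1 ≤ k 0) (hne : k 2 ≠ k 0)
    (hk : (1 : ℚ) / k 0 + 1 / k 1 + 1 / k 2 = 1) :
    k 2 = 2 ∧ ((k 0 = 4 ∧ k 1 = 4) ∨ (k 0 = 6 ∧ k 1 = 3)) := by
  have p2 : (0 : ℚ) < k 2 := by exact_mod_cast h0
  have p1 : (0 : ℚ) < k 1 := lt_of_lt_of_le p2 (by exact_mod_cast h12)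
  have p0 : (0 : ℚ) < k 0 := lt_of_lt_of_le p1 (by exact_mod_cast h01)
  have hint : k 1 * k 2 + k 0 * k 2 + k 0 * k 1 = k 0 * k 1 * k 2 := by
    field_simp at hk
    have : ((k 1 * k 2 + k 0 * k 2 + k 0 * k 1 : ℕ) : ℚ) = ((k 0 * k 1 * k 2 : ℕ) : ℚ) := by
      push_cast
      linarith
    exact_mod_cast this
  generalize k 0 = a at *
  generalize k 1 = b at *
  generalize k 2 = c at *
  have hc3 : c < 3 := by
    by_contra hcon
    push Not at hcon
    have h1 : b * c ≤ a * b := by nlinarith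
    have h2 : a * c ≤ a * b := Nat.mul_le_mul_left a h12
    have h3 : b * c < a * b := by
      have : c < a := lt_of_le_of_ne (h12.trans h01) hne
      have hb : 0 < b := by omega
      nlinarith
    have h4 : a * b * 3 ≤ a * b * c := Nat.mul_le_mul_left _ hcon
    omega
  have hc2 : c = 2 := by
    interval_cases c
    · exfalso
      have : 0 < a * b := by
        apply Nat.mul_pos <;> omega
      nlinarith
    · rfl
  subst hc2
  refine ⟨rfl, ?_⟩
  have hb4 : b ≤ 4 := by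
    by_contra hcon
    push Not at hcon
    nlinarith
  interval_cases b
  · exfalso; omega
  · right; constructor
    · omega
    · rfl
  · left; constructor
    · omega
    · rfl

theorem arithU {n : ℕ} {k : Fin 3 → ℕ} (h0 : 0 < k 2) (h12 : k 2 ≤ k 1) (h01 : k 1 ≤ k 0)
    (hne : k 2 ≠ k 0) (hk : (1 : ℚ) / k 0 + 1 / k 1 + 1 / k 2 = 1) (hn : n = k 0)
    (N : ℕ) (hN : 1 < N) (e : Fin 3 → Fin n → ℤ)
    (hb : ∀ i (l l' : Fin n), (l : ℕ) / (n / k i) = (l' : ℕ) / (n / k i) → (N : ℤ) ∣ e i l - e i l')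
    (h1 : ∀ i l l', IsCoprime (e i l - e i l') (N : ℤ) ∨ (N : ℤ) ∣ e i l - e i l')
    (h2 : ∀ (r : ℕ) (S : Fin 3 → Finset (Fin n)), (∀ i, (S i).card = r) →
      ∑ i, sq (k i) n (S i) = r ^ 2 + 2 → IsCoprime (∑ i, ∑ l ∈ S i, e i l) (N : ℤ))
    (hg : ∀ a : ℤ, IsCoprime a (N : ℤ) → ∃ X Y C, Good N (e 0) (e 1) (e 2) a X Y C) : False := by
  obtain ⟨k2, ⟨k0, k1⟩ | ⟨k0, k1⟩⟩ := arms h0 h12 h01 hne hk
  · rw [k0] at hn
    subst hn
    have hS : ∀ (r : ℕ) (A B D : Finset (Fin 4)), A.card = r → B.card = r → D.card = r →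
        sq 4 4 A + sq 4 4 B + sq 2 4 D = r ^ 2 + 2 →
        IsCoprime (∑ l ∈ A, e 0 l + ∑ l ∈ B, e 1 l + ∑ l ∈ D, e 2 l) (N : ℤ) := by
      intro r A B D hA hB hD h
      have := h2 r ![A, B, D] (by
        intro i
        rcases fin3 i with rfl | rfl | rfl
        · exact hA
        · exact hB
        · exact hD) (by
        rw [Fin.sum_univ_three, k0, k1, k2]
        exact h)
      rw [Fin.sum_univ_three] at this
      exact this
    have e1 : ∀ x : Fin 4, sq 4 4 {x} = 1 := by decide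
    have e2 : ∀ x : Fin 4, sq 2 4 {x} = 1 := by decide
    have e3 : ∀ x y : Fin 4, x ≠ y → sq 4 4 {x, y} = 2 := by decide
    have e4 : sq 2 4 ({0, 2} : Finset (Fin 4)) = 2 := by decide
    refine arith7 hN (e1 := e 0) (e2 := e 1) (e3 := e 2) (hb 2 0 1 (by rw [k2]; rfl))
      (hb 2 2 3 (by rw [k2]; rfl)) (h1 0) (h1 1) (h1 2 0 2)
      (fun i k => ?_) (fun i k => ?_) (fun i i' k k' hi hk => ?_) hg
    · have := hS 1 {i} {k} {0} (card_singleton _) (card_singleton _) (card_singleton _)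
        (by rw [e1, e1, e2]; norm_num)
      simpa only [sum_singleton] using this
    · have := hS 1 {i} {k} {2} (card_singleton _) (card_singleton _) (card_singleton _)
        (by rw [e1, e1, e2]; norm_num)
      simpa only [sum_singleton] using this
    · have := hS 2 {i, i'} {k, k'} {0, 2} (card_pair hi) (card_pair hk) (card_pair (by decide))
        (by rw [e3 _ _ hi, e3 _ _ hk, e4]; norm_num)
      rwa [sum_pair hi, sum_pair hk, sum_pair (show (0 : Fin 4) ≠ 2 by decide)] at this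
  · rw [k0] at hn
    subst hn
    have hS : ∀ (r : ℕ) (A B D : Finset (Fin 6)), A.card = r → B.card = r → D.card = r →
        sq 6 6 A + sq 3 6 B + sq 2 6 D = r ^ 2 + 2 →
        IsCoprime (∑ l ∈ A, e 0 l + ∑ l ∈ B, e 1 l + ∑ l ∈ D, e 2 l) (N : ℤ) := by
      intro r A B D hA hB hD h
      have := h2 r ![A, B, D] (by
        intro i
        rcases fin3 i with rfl | rfl | rfl
        · exact hA
        · exact hB
        · exact hD) (by
        rw [Fin.sum_univ_three, k0, k1, k2]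
        exact h)
      rw [Fin.sum_univ_three] at this
      exact this
    have b1 : ∀ l l' : Fin 6, (l : ℕ) / 2 = (l' : ℕ) / 2 → (N : ℤ) ∣ e 1 l - e 1 l' := by
      intro l l' h
      refine hb 1 l l' ?_
      rw [k1]; exact h
    have b2 : ∀ l l' : Fin 6, (l : ℕ) / 3 = (l' : ℕ) / 3 → (N : ℤ) ∣ e 2 l - e 2 l' := by
      intro l l' h
      refine hb 2 l l' ?_
      rw [k2]; exact h
    have e1 : ∀ x : Fin 6, sq 6 6 {x} = 1 := by decide
    have e2 : ∀ x : Fin 6, sq 3 6 {x} = 1 := by decide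
    have e3 : ∀ x : Fin 6, sq 2 6 {x} = 1 := by decide
    have e4 : ∀ x y : Fin 6, x ≠ y → sq 6 6 {x, y} = 2 := by decide
    have e5 : ∀ x y : Fin 3, x ≠ y → sq 3 6 {dbl x, dbl y} = 2 := by decide
    have e6 : sq 2 6 ({0, 3} : Finset (Fin 6)) = 2 := by decide
    have e7 : ∀ x y z : Fin 6, x ≠ y → x ≠ z → y ≠ z → sq 6 6 {x, y, z} = 3 := by decide
    have e8 : sq 3 6 ({0, 2, 4} : Finset (Fin 6)) = 3 := by decide
    have e9 : sq 2 6 ({0, 1, 3} : Finset (Fin 6)) = 5 := by decide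
    have e10 : sq 2 6 ({0, 3, 4} : Finset (Fin 6)) = 5 := by decide
    have edbl : ∀ x y : Fin 3, x ≠ y → dbl x ≠ dbl y := by decide
    refine arith8 hN (e1 := e 0) (e2 := e 1) (e3 := e 2) (b1 0 1 rfl) (b1 2 3 rfl)
      (b1 4 5 rfl) (b2 0 1 rfl) (b2 0 2 rfl) (b2 3 4 rfl) (b2 3 5 rfl) (h1 _) (h1 _) (h1 _ _ _)
      (fun i j => ?_) (fun i j => ?_) (fun i i' k k' hi hk => ?_) (fun T hT => ?_) hg
    · have := hS 1 {i} {dbl j} {0} (card_singleton _) (card_singleton _) (card_singleton _)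
        (by rw [e1, e2, e3]; norm_num)
      rw [y3_eq]
      simpa only [sum_singleton] using this
    · have := hS 1 {i} {dbl j} {3} (card_singleton _) (card_singleton _) (card_singleton _)
        (by rw [e1, e2, e3]; norm_num)
      rw [y3_eq]
      simpa only [sum_singleton] using this
    · have := hS 2 {i, i'} {dbl k, dbl k'} {0, 3} (card_pair hi) (card_pair (edbl _ _ hk))
        (card_pair (by decide)) (by rw [e4 _ _ hi, e5 _ _ hk, e6]; norm_num)
      rw [y3_eq, y3_eq]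
      rwa [sum_pair hi, sum_pair (edbl _ _ hk), sum_pair (show (0 : Fin 6) ≠ 3 by decide)] at this
    · obtain ⟨i, j, l, hij, hil, hjl, rfl⟩ := Finset.card_eq_three.1 (Finset.mem_powersetCard.1 hT).2
      have hc3 : ({i, j, l} : Finset (Fin 6)).card = 3 := (Finset.mem_powersetCard.1 hT).2
      have hs3 : ∑ j, Pool.Agent.TH190.E8.y3 (e 1) j = e 1 0 + e 1 2 + e 1 4 := by
        rw [Fin.sum_univ_three, y3_eq, y3_eq, y3_eq]
        rfl
      have s1 : ∑ l ∈ ({0, 2, 4} : Finset (Fin 6)), e 1 l = e 1 0 + e 1 2 + e 1 4 := by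
        rw [Finset.sum_insert (by decide), Finset.sum_insert (by decide), Finset.sum_singleton]
        ring
      have s2 : ∑ l ∈ ({0, 1, 3} : Finset (Fin 6)), e 2 l = e 2 0 + e 2 1 + e 2 3 := by
        rw [Finset.sum_insert (by decide), Finset.sum_insert (by decide), Finset.sum_singleton]
        ring
      have s3 : ∑ l ∈ ({0, 3, 4} : Finset (Fin 6)), e 2 l = e 2 0 + e 2 3 + e 2 4 := by
        rw [Finset.sum_insert (by decide), Finset.sum_insert (by decide), Finset.sum_singleton]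
        ring
      constructor
      · have := hS 3 {i, j, l} {0, 2, 4} {0, 1, 3} hc3 (by decide) (by decide)
          (by rw [e7 _ _ _ hij hil hjl, e8, e9]; norm_num)
        rw [s1, s2] at this
        refine cop_congr ?_ this
        rw [hs3]
        have h5 := b2 0 1 rfl
        rwa [show ∑ i ∈ ({i, j, l} : Finset (Fin 6)), e 0 i + (e 1 0 + e 1 2 + e 1 4) +
          (2 * e 2 0 + e 2 3) - (∑ i ∈ ({i, j, l} : Finset (Fin 6)), e 0 i +
          (e 1 0 + e 1 2 + e 1 4) + (e 2 0 + e 2 1 + e 2 3)) = e 2 0 - e 2 1 by ring]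
      · have := hS 3 {i, j, l} {0, 2, 4} {0, 3, 4} hc3 (by decide) (by decide)
          (by rw [e7 _ _ _ hij hil hjl, e8, e10]; norm_num)
        rw [s1, s3] at this
        refine cop_congr ?_ this
        rw [hs3]
        have h5 := b2 3 4 rfl
        rwa [show ∑ i ∈ ({i, j, l} : Finset (Fin 6)), e 0 i + (e 1 0 + e 1 2 + e 1 4) +
          (2 * e 2 3 + e 2 0) - (∑ i ∈ ({i, j, l} : Finset (Fin 6)), e 0 i +
          (e 1 0 + e 1 2 + e 1 4) + (e 2 0 + e 2 3 + e 2 4)) = e 2 3 - e 2 4 by ring]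

end Pool.Agent.TH829.PC
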