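import Pool.Agent.TH829.PC.Fam2

set_option autoImplicit false
set_option maxHeartbeats 4000000

/-!
The core inequality for families of solutions, weighted version (helper829).
-/

open Polynomial

namespace Pool.Agent.TH829.PC

open Pool.Agent.W432.WB
open Pool.Agent.W432.PC (T Tc T_eq T_monic T_ne T_natDegree Tc_monic Tc_eval_ne Tc_eval_eq_zero
  T_eval_ne LocBasis gpoly gpoly_coeff gpoly_natDegree_le gpoly_congr derivative_gpoly
  multiset_nat_eq sum_comp_eq_of_multiset card_filter_eq_of_multiset)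

section

variable {K : Type*} [Field K] {n r : ℕ} {α : Fin n → K} {B : Matrix (Fin r) (Fin r) K[X]}

/-- Families of solutions of small degree with prescribed vanishing, in characteristic `p`. -/
theorem core_fam [IsAlgClosed K] (hα : Function.Injective α) {p : ℕ} [Fact p.Prime] [CharP K p]
    (hfull : ∃ Y : Matrix (Fin r) (Fin r) K[X], (∀ i, Sol α B (Y i)) ∧ Y.det ≠ 0)
    (e : Fin n → Fin r → ℕ) (he : ∀ j i, e j i < p)
    (hA : ∀ j, (resMat α B j).charpoly = ∏ i, (X - C ((e j i : ℕ) : K)))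
    {u : Fin r → ℕ} (hB : WDeg n B u)
    (f : Fin r → ℕ) (hf : ∀ i, f i < p)
    (hAs : (infMat n B u).charpoly = ∏ i, (X - C ((f i : ℕ) : K)))
    (c : ℤ) (hc : (p : ℤ) * c = ∑ j, ∑ i, (e j i : ℤ) + ∑ i, (u i : ℤ) - ∑ i, (f i : ℤ))
    {k : ℕ} (L : Fin n → Matrix (Fin k) (Fin k) K)
    (hh : Fin n → Fin k → ℕ) (hhp : ∀ j a, hh j a ≤ p) (D : Fin k → ℤ)
    (hcount : ∑ j, ∑ a, ((Finset.univ.filter fun i => e j i < hh j a).card : ℤ) + k * c <
      ∑ b, ∑ i, ((D b - f i) / p + 1)) :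
    ∃ W : Fin k → Fin r → K[X], W ≠ 0 ∧ (∀ b, Sol α B (W b)) ∧
      (∀ b i, W b i ≠ 0 → ((W b i).natDegree : ℤ) ≤ D b) ∧
      ∀ j a i, (X - C (α j)) ^ hh j a ∣ ∑ b, C (L j a b) * W b i := by
  classical
  have hp : 0 < p := (Fact.out : p.Prime).pos
  have hp' : (0 : ℤ) < p := by exact_mod_cast hp
  obtain ⟨Y₀, hY₀, hdet₀⟩ := hfull
  obtain ⟨Y, h⟩ := exists_minFam u hY₀ hdet₀
  choose e₁ P z hb using fun j => h.exists_locBasis hα p j
  have hms : ∀ j, (Finset.univ : Finset (Fin r)).val.map (e₁ j) =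
      (Finset.univ : Finset (Fin r)).val.map (e j) := by
    intro j
    refine multiset_nat_eq (k := K) (hb j).lt (he j) ?_
    rw [← hA j, ← h.charpoly_loc hα (hb j)]
  have hms' : (Finset.univ : Finset (Fin r)).val.map (fun i => vdeg u (Y i) % p) =
      (Finset.univ : Finset (Fin r)).val.map f := by
    refine multiset_nat_eq (k := K) (fun i => Nat.mod_lt _ hp) hf ?_
    rw [← hAs, h.charpoly_inf hB p]
    refine Finset.prod_congr rfl fun i _ => ?_
    congr 2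
    rw [CharP.natCast_eq_natCast K p]
    exact Nat.mod_modEq _ _
  -- degrees
  have hdeg : (∑ i, (vdeg u (Y i) : ℤ)) ≤ ∑ j, ∑ i, (e j i : ℤ) + ∑ i, (u i : ℤ) := by
    have h1 := h.sum_vdeg_le hB p
    rw [h.natDegree_det hα p hb] at h1
    have h2 : ∑ j, ∑ i, e₁ j i = ∑ j, ∑ i, e j i :=
      Finset.sum_congr rfl fun j _ => sum_comp_eq_of_multiset (fun a => a) (hms j)
    rw [h2] at h1
    exact_mod_cast h1
  have hmod : ∑ i, ((vdeg u (Y i) % p : ℕ) : ℤ) = ∑ i, (f i : ℤ) :=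
    sum_comp_eq_of_multiset (fun a => (a : ℤ)) hms'
  have hdiv : ∑ i, ((vdeg u (Y i) / p : ℕ) : ℤ) ≤ c := by
    have h1 : (p : ℤ) * ∑ i, ((vdeg u (Y i) / p : ℕ) : ℤ) + ∑ i, ((vdeg u (Y i) % p : ℕ) : ℤ) =
        ∑ i, (vdeg u (Y i) : ℤ) := by
      rw [Finset.mul_sum, ← Finset.sum_add_distrib]
      refine Finset.sum_congr rfl fun i _ => ?_
      exact_mod_cast Nat.div_add_mod (vdeg u (Y i)) p
    rw [hmod] at h1
    have h2 : (p : ℤ) * ∑ i, ((vdeg u (Y i) / p : ℕ) : ℤ) ≤ p * c := by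
      rw [hc]; linarith
    exact le_of_mul_le_mul_left h2 hp'
  have hsum : ∀ b, ∑ i, ((D b - vdeg u (Y i)) / p + 1) =
      ∑ i, ((D b - f i) / p + 1) - ∑ i, ((vdeg u (Y i) / p : ℕ) : ℤ) := by
    intro b
    rw [← sum_comp_eq_of_multiset (fun a => (D b - (a : ℤ)) / p + 1) hms', ← Finset.sum_sub_distrib]
    refine Finset.sum_congr rfl fun i _ => ?_
    have h1 : (vdeg u (Y i) : ℤ) = (vdeg u (Y i) % p : ℕ) + (vdeg u (Y i) / p : ℕ) * (p : ℤ) := by
      have := Nat.mod_add_div (vdeg u (Y i)) p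
      rw [mul_comm] at this
      exact_mod_cast this.symm
    have h2 : (D b - vdeg u (Y i)) / p = (D b - (vdeg u (Y i) % p : ℕ)) / p - (vdeg u (Y i) / p : ℕ) := by
      conv_lhs => rw [h1]
      rw [← sub_sub, Int.sub_mul_ediv_right _ _ hp'.ne']
    rw [h2]
    ring
  refine exists_fam h hb L hh hhp D ?_
  simp only [hsum]
  rw [Finset.sum_sub_distrib, Finset.sum_const, Finset.card_univ, Fintype.card_fin, nsmul_eq_mul]
  have h1 : ∑ j, ∑ a, ((Finset.univ.filter fun i => e₁ j i < hh j a).card : ℤ) =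
      ∑ j, ∑ a, ((Finset.univ.filter fun i => e j i < hh j a).card : ℤ) :=
    Finset.sum_congr rfl fun j _ => Finset.sum_congr rfl fun a _ => by
      rw [card_filter_eq_of_multiset _ (hms j)]
  rw [h1]
  have h2 : (k : ℤ) * ∑ i, ((vdeg u (Y i) / p : ℕ) : ℤ) ≤ k * c :=
    mul_le_mul_of_nonneg_left hdiv (Int.natCast_nonneg _)
  linarith

end

end Pool.Agent.TH829.PC
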