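import Pool.Agent.W432.WB.Descent

set_option autoImplicit false
set_option maxHeartbeats 4000000

/-!
The reductions of a Fuchsian operator at large primes as weighted systems (helper829).
-/

open Polynomial

namespace Pool.Agent.TH829.PC

open Pool.Agent.W432.WB
open Pool.Agent.W432.PC (T Tc T_eq T_monic T_ne T_natDegree Tc_monic Tc_eval_ne Tc_eval_eq_zero
  T_eval_ne T_map Tc_map exists_closed_point)

universe u

lemma data_ring {R : Type u} [CommRing R] [IsDomain R] [CharZero R] [Algebra.FiniteType ℤ R]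
    {m n : ℕ} (hm : 0 < m) (hn : 0 < n)
    (b : Fin (n + 1) → ℤ[X]) (hb : b (Fin.last n) ≠ 0) (α : Fin m → R)
    (hα : ∀ i j, i ≠ j → IsUnit (α i - α j)) (Q : Fin (n + 1) → R[X])
    (hQ : Q (Fin.last n) = 1) (hdeg : ∀ k, (Q k).natDegree ≤ (n - k) * (m - 1))
    (hbQ : ∀ k : Fin (n + 1), T α ^ (n - (k : ℕ)) * (b k).map (Int.castRingHom R) =
      (b (Fin.last n)).map (Int.castRingHom R) * Q k)
    (N : ℕ) (mu : Fin m → Fin n → ℤ) (mu' : Fin n → ℤ)
    (hloc : ∀ j, C ((N : R) ^ n) * indLoc α Q j = C ((derivative (T α)).eval (α j) ^ n) *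
      ∏ l, (C (N : R) * X - C ((mu j l : ℤ) : R)))
    (hinf : C ((N : R) ^ n) * indInf m Q = ∏ l, (C (N : R) * X - C ((mu' l : ℤ) : R))) :
    ∃ P₀ : ℕ, ∀ p : ℕ, P₀ < p → ∀ _hp : Fact p.Prime, FullMod b p →
      ∃ (K : Type u) (_ : Field K) (_ : IsAlgClosed K) (_ : CharP K p) (β : Fin m → K)
        (B : Matrix (Fin n) (Fin n) K[X]), Function.Injective β ∧ WDeg m B (cw m n) ∧ Full β B ∧
        (∀ j, RedExp N (resMat β B j).charpoly (mu j)) ∧
        RedExp N (infMat m B (cw m n)).charpoly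
          (fun l => mu' l + N * ((n - 1) * (m - 1) : ℕ)) := by
  classical
  obtain ⟨P₁, hP₁⟩ := exists_closed_point R (one_ne_zero (α := R))
  refine ⟨max (b (Fin.last n)).leadingCoeff.natAbs P₁, ?_⟩
  intro p hpP hp hfm
  simp only [max_lt_iff] at hpP
  obtain ⟨𝔪, h𝔪, hpm, -⟩ := hP₁ p hp.out hpP.2
  obtain ⟨K, iF, iA, iC, φ, h1⟩ := geo hp.out hpm
  have hinj : Function.Injective fun j => φ (α j) := by
    intro i j hij
    by_contra hne
    have h2 := (hα i j hne).map φ
    simp only at hij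
    rw [map_sub, hij, sub_self] at h2
    exact not_isUnit_zero h2
  have hcast : φ.comp (Int.castRingHom R) = Int.castRingHom K := RingHom.ext_int _ _
  have hbK : (b (Fin.last n)).map (Int.castRingHom K) ≠ 0 := by
    intro h0
    have h2 := congrArg (fun q => q.coeff (b (Fin.last n)).natDegree) h0
    simp only [coeff_map, coeff_zero, eq_intCast] at h2
    have h3 := (CharP.intCast_eq_zero_iff K p _).mp h2
    have h4 := Int.natAbs_dvd_natAbs.mpr h3
    rw [Int.natAbs_natCast] at h4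
    have h5 := Nat.le_of_dvd (Int.natAbs_pos.mpr (by
      rw [coeff_natDegree]; exact leadingCoeff_ne_zero.mpr hb)) h4
    rw [coeff_natDegree] at h5
    omega
  have hfull : Full (fun j => φ (α j)) (comp (fun j => φ (α j)) fun k => (Q k).map φ) := by
    refine hfm.full (by simp only [hQ, Polynomial.map_one]) (fun k => ?_) hbK
    have h2 := congrArg (Polynomial.map φ) (hbQ k)
    rw [Polynomial.map_mul, Polynomial.map_mul, Polynomial.map_pow, T_map, Polynomial.map_map,
      Polynomial.map_map, hcast] at h2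
    exact h2
  have hdegK : ∀ k, ((Q k).map φ).natDegree ≤ (n - k) * (m - 1) := fun k =>
    natDegree_map_le.trans (hdeg k)
  exact ⟨K, iF, iA, iC, fun j => φ (α j), comp (fun j => φ (α j)) fun k => (Q k).map φ, hinj,
    WDeg_comp hm _ hdegK, hfull, fun j => redExp_loc φ hinj hQ (hloc j),
    redExp_inf φ hm hn hQ hinf⟩

theorem data_field {F : Type u} [Field F] [CharZero F] {m n : ℕ} (hm : 0 < m) (hn : 0 < n)
    (b : Fin (n + 1) → ℤ[X]) (hb : b (Fin.last n) ≠ 0) (α : Fin m → F) (Q : Fin (n + 1) → F[X])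
    (hF : IsFuchs b α Q) (lam : Fin m → Fin n → ℚ) (phi : Fin n → ℚ) (hE : HasExps α Q lam phi)
    (N : ℕ) (mu : Fin m → Fin n → ℤ) (mu' : Fin n → ℤ)
    (hmu : ∀ j l, (N : ℚ) * lam j l = mu j l) (hmu' : ∀ l, (N : ℚ) * phi l = mu' l) :
    ∃ P₀ : ℕ, ∀ p : ℕ, P₀ < p → ∀ _hp : Fact p.Prime, FullMod b p →
      ∃ (K : Type u) (_ : Field K) (_ : IsAlgClosed K) (_ : CharP K p) (β : Fin m → K)
        (B : Matrix (Fin n) (Fin n) K[X]), Function.Injective β ∧ WDeg m B (cw m n) ∧ Full β B ∧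
        (∀ j, RedExp N (resMat β B j).charpoly (mu j)) ∧
        RedExp N (infMat m B (cw m n)).charpoly
          (fun l => mu' l + N * ((n - 1) * (m - 1) : ℕ)) := by
  classical
  let S : Finset F := (Finset.univ.image α) ∪
    (Finset.univ.image fun x : Fin m × Fin m => (α x.1 - α x.2)⁻¹) ∪
    (Finset.univ.biUnion fun k : Fin (n + 1) => (Q k).support.image (Q k).coeff)
  obtain ⟨R, _, _, _, _, ι, hι, hS⟩ := exists_ring S
  have hα' : ∀ j, ∃ x, ι x = α j := fun j => hS _ (by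
    simp only [S, Finset.mem_union, Finset.mem_image, Finset.mem_univ, true_and]
    exact Or.inl (Or.inl ⟨j, rfl⟩))
  choose α' hα' using hα'
  have hinv : ∀ i j, ∃ x, ι x = (α i - α j)⁻¹ := fun i j => hS _ (by
    simp only [S, Finset.mem_union, Finset.mem_image, Finset.mem_univ, true_and]
    exact Or.inl (Or.inr ⟨(i, j), rfl⟩))
  have hQl : ∀ k, ∃ P : R[X], P.map ι = Q k := fun k => exists_lift ι (Q k) fun i hi => hS _ (by
    simp only [S, Finset.mem_union, Finset.mem_biUnion, Finset.mem_univ, true_and]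
    exact Or.inr ⟨k, Finset.mem_image.mpr ⟨i, hi, rfl⟩⟩)
  choose Q' hQ' using hQl
  have hαe : (fun j => ι (α' j)) = α := funext hα'
  have hQe : (fun k => (Q' k).map ι) = Q := funext hQ'
  have hmapinj : Function.Injective (Polynomial.map ι) := map_injective ι hι
  have hcast : ι.comp (Int.castRingHom R) = Int.castRingHom F := RingHom.ext_int _ _
  have hunit : ∀ i j, i ≠ j → IsUnit (α' i - α' j) := by
    intro i j hij
    obtain ⟨x, hx⟩ := hinv i j
    refine IsUnit.of_mul_eq_one x ?_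
    apply hι
    rw [map_mul, map_sub, hα', hα', hx, map_one]
    exact mul_inv_cancel₀ (sub_ne_zero.mpr fun h => hij (hF.inj h))
  have hQlast : Q' (Fin.last n) = 1 := by
    apply hmapinj
    rw [hQ', hF.last, Polynomial.map_one]
  have hdeg : ∀ k, (Q' k).natDegree ≤ (n - k) * (m - 1) := by
    intro k
    rw [← natDegree_map_eq_of_injective hι, hQ']
    exact hF.deg k
  have hbQ : ∀ k : Fin (n + 1), T α' ^ (n - (k : ℕ)) * (b k).map (Int.castRingHom R) =
      (b (Fin.last n)).map (Int.castRingHom R) * Q' k := by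
    intro k
    apply hmapinj
    rw [Polynomial.map_mul, Polynomial.map_mul, Polynomial.map_pow, T_map, Polynomial.map_map,
      Polynomial.map_map, hcast, hQ', hαe]
    exact hF.eq k
  have hfac : ∀ (x : Fin n → ℚ) (z : Fin n → ℤ), (∀ l, (N : ℚ) * x l = z l) →
      C ((N : F) ^ n) * ∏ l, (X - C ((x l : ℚ) : F)) =
        ∏ l, (C (N : F) * X - C ((z l : ℤ) : F)) := by
    intro x z hxz
    have h1 : C ((N : F) ^ n) = ∏ _l : Fin n, (C (N : F) : F[X]) := by
      rw [Finset.prod_const, Finset.card_univ, Fintype.card_fin, C_pow]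
    rw [h1, ← Finset.prod_mul_distrib]
    refine Finset.prod_congr rfl fun l _ => ?_
    have h2 : (N : F) * ((x l : ℚ) : F) = ((z l : ℤ) : F) := by
      exact_mod_cast congrArg (fun x : ℚ => (x : F)) (hxz l)
    rw [mul_sub, ← C_mul, h2]
  have hlinmap : ∀ z : Fin n → ℤ, (∏ l, (C (N : R) * X - C ((z l : ℤ) : R))).map ι =
      ∏ l, (C (N : F) * X - C ((z l : ℤ) : F)) := by
    intro z
    rw [Polynomial.map_prod]
    exact Finset.prod_congr rfl fun l _ => by simp
  have hloc : ∀ j, C ((N : R) ^ n) * indLoc α' Q' j = C ((derivative (T α')).eval (α' j) ^ n) *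
      ∏ l, (C (N : R) * X - C ((mu j l : ℤ) : R)) := by
    intro j
    apply hmapinj
    have h1 : ι ((derivative (T α')).eval (α' j)) = (derivative (T α)).eval (α j) := by
      rw [← eval_map_apply, ← derivative_map, T_map, hαe, hα']
    rw [Polynomial.map_mul, Polynomial.map_mul, indLoc_map, hαe, hQe, hlinmap, map_C, map_C,
      map_pow ι, map_pow ι, map_natCast, h1, hE.1 j, ← hfac _ _ (hmu j)]
    ring
  have hinf : C ((N : R) ^ n) * indInf m Q' = ∏ l, (C (N : R) * X - C ((mu' l : ℤ) : R)) := by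
    apply hmapinj
    rw [Polynomial.map_mul, indInf_map, hQe, hlinmap, map_C, map_pow ι, map_natCast, hE.2,
      hfac _ _ hmu']
  exact data_ring hm hn b hb α' hunit Q' hQlast hdeg hbQ N mu mu' hloc hinf

/-- Fuchs' relation for the numerators. -/
lemma fuchs_int {F : Type u} [Field F] [CharZero F] {m n : ℕ} (hm : 0 < m) (hn : 0 < n)
    {b : Fin (n + 1) → ℤ[X]} {α : Fin m → F} {Q : Fin (n + 1) → F[X]}
    (hF : IsFuchs b α Q) {lam : Fin m → Fin n → ℚ} {phi : Fin n → ℚ} (hE : HasExps α Q lam phi)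
    {N : ℕ} {mu : Fin m → Fin n → ℤ} {mu' : Fin n → ℤ}
    (hmu : ∀ j l, (N : ℚ) * lam j l = mu j l) (hmu' : ∀ l, (N : ℚ) * phi l = mu' l) :
    ∑ j, ∑ l, mu j l + N * ∑ i, ((cw m n i : ℕ) : ℤ) =
      ∑ l, (mu' l + N * ((n - 1) * (m - 1) : ℕ)) := by
  have h1 := fuchs hn hm hF.inj hF.last hF.deg hE.1 hE.2
  have h2 := congrArg (fun x : ℚ => (N : ℚ) * x) h1
  simp only [mul_add, Finset.mul_sum, hmu, hmu'] at h2
  have h3 : ((∑ j, ∑ l, mu j l + N * ∑ i, ((cw m n i : ℕ) : ℤ) : ℤ) : ℚ) =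
      ((∑ l, (mu' l + N * ((n - 1) * (m - 1) : ℕ)) : ℤ) : ℚ) := by
    push_cast
    rw [Finset.mul_sum]
    simp only [Nat.cast_mul] at h2
    exact_mod_cast h2
  exact_mod_cast h3

end Pool.Agent.TH829.PC
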