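import Pool.Agent.W280.PE.Two
import Pool.Agent.TH829.PC.CoreFam2

set_option autoImplicit false
set_option maxHeartbeats 4000000

/-!
The alternatives for a pencil of solutions, weighted version, with a common factor (helper829).
-/

open Polynomial

namespace Pool.Agent.TH829.PC

open Pool.Agent.W432.WB Pool.Agent.W280.PE
open Pool.Agent.W432.PC (T Tc T_eq T_monic T_ne T_natDegree)

section

variable {K : Type*} [Field K]

variable {n r : ℕ} {α : Fin n → K} {B : Matrix (Fin r) (Fin r) K[X]}

/-- Proportional solutions: the coefficients are constants for the derivation. -/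
lemma ratio_der {t s : K[X]} {V : Fin r → K[X]} {i : Fin r} (hV : V i ≠ 0)
    (hts : IsCoprime t s)
    (h1 : Sol α B (fun l => t * V l)) (h2 : Sol α B (fun l => s * V l)) :
    derivative t = 0 ∧ derivative s = 0 := by
  have hm1 : B.mulVec (fun l => t * V l) i = t * B.mulVec V i := by
    have : (fun l => t * V l) = t • V := rfl
    rw [this, Matrix.mulVec_smul]; rfl
  have hm2 : B.mulVec (fun l => s * V l) i = s * B.mulVec V i := by
    have : (fun l => s * V l) = s • V := rfl
    rw [this, Matrix.mulVec_smul]; rfl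
  have e1 := h1 i
  have e2 := h2 i
  simp only [hm1, hm2, derivative_mul] at e1 e2
  have h3 : T α * V i * (s * derivative t - t * derivative s) = 0 := by
    linear_combination s * e1 - t * e2
  have h4 := (mul_eq_zero.mp h3).resolve_left (mul_ne_zero T_ne hV)
  have h5 : s * derivative t = t * derivative s := sub_eq_zero.mp h4
  constructor
  · have h6 : t ∣ derivative t := hts.dvd_of_dvd_mul_left ⟨_, h5⟩
    by_contra hne
    have h7 := natDegree_le_of_dvd h6 hne
    by_cases h8 : t.natDegree = 0
    · rw [eq_C_of_natDegree_eq_zero h8, derivative_C] at hne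
      exact hne rfl
    · have := natDegree_derivative_lt h8
      omega
  · have h6 : s ∣ derivative s := hts.symm.dvd_of_dvd_mul_left ⟨_, h5.symm⟩
    by_contra hne
    have h7 := natDegree_le_of_dvd h6 hne
    by_cases h8 : s.natDegree = 0
    · rw [eq_C_of_natDegree_eq_zero h8, derivative_C] at hne
      exact hne rfl
    · have := natDegree_derivative_lt h8
      omega

/-- The five alternatives. -/
theorem two_alt2 [IsAlgClosed K] {p : ℕ} [CharP K p] {x y : K} (hxy : x ≠ y)
    {P : K[X]} (hP : P ≠ 0) {W1 W2 : Fin r → K[X]} (hW : W1 ≠ 0 ∨ W2 ≠ 0)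
    (h1 : Sol α B (fun l => P * W1 l)) (h2 : Sol α B (fun l => P * W2 l))
    {D1 D2 : ℤ} (hD : D2 ≤ D1) (hd1 : ∀ i, W1 i ≠ 0 → ((W1 i).natDegree : ℤ) ≤ D1)
    (hd2 : ∀ i, W2 i ≠ 0 → ((W2 i).natDegree : ℤ) ≤ D2)
    {lo0 hi0 lo1 hi1 : ℕ} (hlo0 : lo0 ≤ hi0) (hlo1 : lo1 ≤ hi1)
    (hx1 : ∀ i, (X - C x) ^ hi0 ∣ W1 i) (hx2 : ∀ i, (X - C x) ^ lo0 ∣ W2 i)
    (hy1 : ∀ i, (X - C y) ^ hi1 ∣ W1 i + W2 i) (hy2 : ∀ i, (X - C y) ^ lo1 ∣ W1 i) :
    ((lo0 : ℤ) + hi0 + lo1 + hi1 ≤ D1 + D2) ∨ ((lo0 : ℤ) + hi1 ≤ D2) ∨ ((hi0 : ℤ) + lo1 ≤ D2) ∨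
      ((hi0 : ℤ) + hi1 ≤ D1) ∨ ((lo0 : ℤ) + lo1 ≤ D1 - p) := by
  classical
  have hy3 : ∀ i, (X - C y) ^ lo1 ∣ W2 i := by
    intro i
    have h3 := (dvd_sub ((pow_dvd_pow (X - C y) hlo1).trans (hy1 i)) (hy2 i))
    rwa [add_sub_cancel_left] at h3
  have hx3 : ∀ i, (X - C x) ^ lo0 ∣ W1 i := fun i => (pow_dvd_pow _ hlo0).trans (hx1 i)
  by_cases hw : ∃ i l, W1 i * W2 l - W1 l * W2 i ≠ 0
  · -- the wedge is nonzero
    left
    obtain ⟨i, l, hne⟩ := hw
    have k1 : (X - C x) ^ (lo0 + hi0) ∣ W1 i * W2 l - W1 l * W2 i := by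
      rw [pow_add, mul_comm]
      exact dvd_sub (mul_dvd_mul (hx1 i) (hx2 l)) (mul_dvd_mul (hx1 l) (hx2 i))
    have k2 : (X - C y) ^ (lo1 + hi1) ∣ W1 i * W2 l - W1 l * W2 i := by
      have h3 : W1 i * W2 l - W1 l * W2 i =
          (W1 i + W2 i) * W2 l - (W1 l + W2 l) * W2 i := by ring
      rw [h3, pow_add, mul_comm]
      exact dvd_sub (mul_dvd_mul (hy1 i) (hy3 l)) (mul_dvd_mul (hy1 l) (hy3 i))
    have k3 := two_dvd hxy hne k1 k2
    have k4 : ((W1 i * W2 l - W1 l * W2 i).natDegree : ℤ) ≤ D1 + D2 := by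
      have hterm : ∀ u v, W1 u * W2 v ≠ 0 → ((W1 u * W2 v).natDegree : ℤ) ≤ D1 + D2 := by
        intro u v huv
        have h5 := left_ne_zero_of_mul huv
        have h6 := right_ne_zero_of_mul huv
        rw [natDegree_mul h5 h6]
        push_cast
        linarith [hd1 u h5, hd2 v h6]
      by_cases h5 : W1 i * W2 l = 0
      · rw [h5, zero_sub, natDegree_neg]
        refine hterm l i ?_
        intro h6
        rw [h5, h6, sub_zero] at hne
        exact hne rfl
      · by_cases h6 : W1 l * W2 i = 0
        · rw [h6, sub_zero]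
          exact hterm i l h5
        · have h7 := natDegree_sub_le (W1 i * W2 l) (W1 l * W2 i)
          have h8 := hterm i l h5
          have h9 := hterm l i h6
          rcases le_max_iff.mp h7 with h10 | h10
          · have : ((W1 i * W2 l - W1 l * W2 i).natDegree : ℤ) ≤
                ((W1 i * W2 l).natDegree : ℤ) := by exact_mod_cast h10
            linarith
          · have : ((W1 i * W2 l - W1 l * W2 i).natDegree : ℤ) ≤
                ((W1 l * W2 i).natDegree : ℤ) := by exact_mod_cast h10
            linarith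
    have k5 : (((lo0 + hi0) + (lo1 + hi1) : ℕ) : ℤ) ≤
        ((W1 i * W2 l - W1 l * W2 i).natDegree : ℤ) := by exact_mod_cast k3
    push_cast at k5
    linarith
  · right
    push Not at hw
    by_cases hz1 : W1 = 0
    · -- the first solution vanishes
      left
      have hz2 : W2 ≠ 0 := hW.resolve_left (fun h => h hz1)
      obtain ⟨i, hi⟩ := Function.ne_iff.mp hz2
      have k1 := hy1 i
      rw [hz1, Pi.zero_apply, zero_add] at k1
      have k3 := two_dvd hxy hi (hx2 i) k1
      have k4 := hd2 i hi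
      have : ((lo0 + hi1 : ℕ) : ℤ) ≤ ((W2 i).natDegree : ℤ) := by exact_mod_cast k3
      push_cast at this
      linarith
    right
    by_cases hz2 : W2 = 0
    · right; left
      obtain ⟨i, hi⟩ := Function.ne_iff.mp hz1
      have k1 := hy1 i
      rw [hz2, Pi.zero_apply, add_zero] at k1
      have k3 := two_dvd hxy hi (hx1 i) k1
      have k4 := hd1 i hi
      have : ((hi0 + hi1 : ℕ) : ℤ) ≤ ((W1 i).natDegree : ℤ) := by exact_mod_cast k3
      push_cast at this
      linarith
    -- both are nonzero and proportional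
    obtain ⟨i, hi⟩ := Function.ne_iff.mp hz1
    rw [Pi.zero_apply] at hi
    have hi2 : W2 i ≠ 0 := by
      intro h0
      apply hz2
      ext1 l
      have := hw i l
      rw [h0, mul_zero, sub_zero] at this
      exact (mul_eq_zero.mp this).resolve_left hi
    obtain ⟨g, t, s, hcop, ht, hs⟩ : ∃ g t s : K[X], IsCoprime t s ∧ W1 i = t * g ∧
        W2 i = s * g := by
      obtain ⟨t, ht⟩ := EuclideanDomain.gcd_dvd_left (W1 i) (W2 i)
      obtain ⟨s, hs⟩ := EuclideanDomain.gcd_dvd_right (W1 i) (W2 i)
      refine ⟨EuclideanDomain.gcd (W1 i) (W2 i), t, s, ?_, ?_, ?_⟩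
      · have hg0 : EuclideanDomain.gcd (W1 i) (W2 i) ≠ 0 := fun h =>
          hi (EuclideanDomain.gcd_eq_zero_iff.mp h).1
        refine ⟨EuclideanDomain.gcdA (W1 i) (W2 i), EuclideanDomain.gcdB (W1 i) (W2 i), ?_⟩
        have hb := EuclideanDomain.gcd_eq_gcd_ab (W1 i) (W2 i)
        apply mul_left_cancel₀ hg0
        linear_combination (-(EuclideanDomain.gcdA (W1 i) (W2 i))) * ht -
          EuclideanDomain.gcdB (W1 i) (W2 i) * hs - hb
      · rw [mul_comm]; exact ht
      · rw [mul_comm]; exact hs
    have ht0 : t ≠ 0 := by rintro rfl; exact hi (by rw [ht, zero_mul])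
    have hs0 : s ≠ 0 := by rintro rfl; exact hi2 (by rw [hs, zero_mul])
    have hg0 : g ≠ 0 := by rintro rfl; exact hi (by rw [ht, mul_zero])
    have hprop : ∀ l, t * W2 l = s * W1 l := by
      intro l
      have h3 := hw i l
      rw [ht, hs] at h3
      apply mul_left_cancel₀ hg0
      linear_combination h3
    have hdiv : ∀ l, t ∣ W1 l := fun l => hcop.dvd_of_dvd_mul_left ⟨W2 l, (hprop l).symm⟩
    choose V hV using hdiv
    have hV2 : ∀ l, W2 l = s * V l := by
      intro l
      apply mul_left_cancel₀ ht0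
      rw [hprop l, hV l]
      ring
    have hVi : V i ≠ 0 := by
      intro h0
      apply hi
      rw [hV i, h0, mul_zero]
    have hW1 : W1 = fun l => t * V l := funext hV
    have hW2 : W2 = fun l => s * V l := funext hV2
    have h1' : Sol α B (fun l => t * (P * V l)) := by
      have e1 : (fun l => P * W1 l) = fun l => t * (P * V l) := by
        ext1 l; rw [hV l]; ring
      rwa [e1] at h1
    have h2' : Sol α B (fun l => s * (P * V l)) := by
      have e1 : (fun l => P * W2 l) = fun l => s * (P * V l) := by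
        ext1 l; rw [hV2 l]; ring
      rwa [e1] at h2
    obtain ⟨hdt, hds⟩ := ratio_der (V := fun l => P * V l) (mul_ne_zero hP hVi) hcop h1' h2'
    -- orders of the common factor
    have hVx : (X - C x) ^ lo0 ∣ V i := by
      by_cases h3 : t.eval x = 0
      · have h4 : s.eval x ≠ 0 := by
          intro h5
          obtain ⟨u, v, huv⟩ := hcop
          have := congrArg (Polynomial.eval x) huv
          simp [h3, h5] at this
        have h6 := hx2 i
        rw [hV2 i] at h6
        exact (coprime_pow_of_eval h4 lo0).dvd_of_dvd_mul_left h6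
      · have h6 := hx3 i
        rw [hV i] at h6
        exact (coprime_pow_of_eval h3 lo0).dvd_of_dvd_mul_left h6
    have hVy : (X - C y) ^ lo1 ∣ V i := by
      by_cases h3 : t.eval y = 0
      · have h4 : s.eval y ≠ 0 := by
          intro h5
          obtain ⟨u, v, huv⟩ := hcop
          have := congrArg (Polynomial.eval y) huv
          simp [h3, h5] at this
        have h6 := hy3 i
        rw [hV2 i] at h6
        exact (coprime_pow_of_eval h4 lo1).dvd_of_dvd_mul_left h6
      · have h6 := hy2 i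
        rw [hV i] at h6
        exact (coprime_pow_of_eval h3 lo1).dvd_of_dvd_mul_left h6
    have e1 := hd1 i hi
    have e2 := hd2 i hi2
    rw [hV i, natDegree_mul ht0 hVi] at e1
    rw [hV2 i, natDegree_mul hs0 hVi] at e2
    push_cast at e1 e2
    have k3 := two_dvd hxy hVi hVx hVy
    have k3' : (lo0 : ℤ) + lo1 ≤ ((V i).natDegree : ℤ) := by exact_mod_cast k3
    by_cases h3 : t.natDegree = 0
    · by_cases h4 : s.natDegree = 0
      · -- constants
        left
        have h5 : t.eval x ≠ 0 := by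
          rw [eq_C_of_natDegree_eq_zero h3, eval_C]
          intro h6
          apply ht0
          rw [eq_C_of_natDegree_eq_zero h3, h6, C_0]
        have h6 := hx1 i
        rw [hV i] at h6
        have h7 := (coprime_pow_of_eval h5 hi0).dvd_of_dvd_mul_left h6
        have k4 := two_dvd hxy hVi h7 hVy
        have k4' : (hi0 : ℤ) + lo1 ≤ ((V i).natDegree : ℤ) := by exact_mod_cast k4
        have : (0 : ℤ) ≤ (s.natDegree : ℤ) := Int.natCast_nonneg _
        linarith
      · right; right
        have h5 := natDegree_of_derivative (p := p) hds h4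
        have h6 : (p : ℤ) ≤ (s.natDegree : ℤ) := by exact_mod_cast h5
        linarith
    · right; right
      have h5 := natDegree_of_derivative (p := p) hdt h3
      have h6 : (p : ℤ) ≤ (t.natDegree : ℤ) := by exact_mod_cast h5
      linarith

end

end Pool.Agent.TH829.PC
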