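import Pool.Agent.W280.PE.Int
import Pool.Agent.TH829.PC.Two2
import Pool.Agent.W432.WB.PointK

set_option autoImplicit false
set_option maxHeartbeats 4000000

/-!
Families of solutions in terms of integral weights, weighted version (helper829).
-/

open Polynomial

namespace Pool.Agent.TH829.PC

open Pool.Agent.W432.WB Pool.Agent.W280.PE Pool.Agent.W280.PC

section

variable {n r : ℕ}

/-- Families of solutions at a geometric point of characteristic `p`. -/
theorem fam_point2 {K : Type*} [Field K] [IsAlgClosed K] {p : ℕ}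
    [Fact p.Prime] [CharP K p] {α : Fin n → K} (hα : Function.Injective α)
    {B : Matrix (Fin r) (Fin r) K[X]} {u : Fin r → ℕ} (hB : WDeg n B u) (hfull : Full α B)
    {N : ℕ} (hN : 1 < N) {a : ℤ} (hap : (N : ℤ) ∣ a * p + 1)
    {e : Fin n → Fin r → ℤ} {e' : Fin r → ℤ}
    (hlam : ∀ j, RedExp N (resMat α B j).charpoly (e j))
    (hphi : RedExp N (infMat n B u).charpoly e')
    (htr : ∑ j, ∑ l, e j l + N * ∑ i, (u i : ℤ) = ∑ l, e' l)
    {M : ℤ} (hM : ∀ j l, |e j l| ≤ M) (hM' : ∀ l, |e' l| ≤ M) (hp : 2 * M < p)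
    (hsort : ∀ j l l', l ≤ l' → wI N a (e j l) < wI N a (e j l') ∨
      (wI N a (e j l) = wI N a (e j l') ∧ e j l ≤ e j l'))
    (hsort' : ∀ l l', l ≤ l' → wI N a (e' l) < wI N a (e' l') ∨
      (wI N a (e' l) = wI N a (e' l') ∧ e' l ≤ e' l'))
    (c : ℤ) (hc : ∑ j, ∑ l, wI N a (e j l) - ∑ l, wI N a (e' l) = c * N) :
    ∃ (E : Fin n → Fin r → ℕ) (F : Fin r → ℕ),
      (∀ j l, (N : ℤ) * E j l = e j l + p * wI N a (e j l)) ∧
      (∀ l, (N : ℤ) * F l = e' l + p * wI N a (e' l)) ∧
      (∀ j l l', l ≤ l' → E j l ≤ E j l') ∧ (∀ l l', l ≤ l' → F l ≤ F l') ∧ (∀ l, F l < p) ∧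
      ∀ (k : ℕ) (L : Fin n → Matrix (Fin k) (Fin k) K) (κ : Fin n → Fin k → Fin r)
        (q : Fin k → ℤ) (s : Fin k → Fin r),
        ∑ j, ∑ b, ((κ j b : ℕ) : ℤ) + k * c < ∑ b, (q b * r + (s b : ℕ) + 1) →
        ∃ W : Fin k → Fin r → K[X], W ≠ 0 ∧
          (∀ b, Sol α B (W b)) ∧
          (∀ b i, W b i ≠ 0 → ((W b i).natDegree : ℤ) ≤ p * q b + F (s b)) ∧
          ∀ j b' i, (X - C (α j)) ^ E j (κ j b') ∣ ∑ b, C (L j b' b) * W b i := by
  classical
  have hN0 : 0 < N := by omega
  have hp0 : (0 : ℤ) < p := by exact_mod_cast (Fact.out : p.Prime).pos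
  have hNpos : (0 : ℤ) < N := by exact_mod_cast hN0
  choose E helt ht using fun j l => exists_repI hN0
    (lt_of_le_of_lt (hM j l) (by
      have := (abs_nonneg _).trans (hM j l)
      omega)) hap (p := p)
  choose F hflt ht' using fun l => exists_repI hN0
    (lt_of_le_of_lt (hM' l) (by
      have := (abs_nonneg _).trans (hM' l)
      omega)) hap (p := p)
  have hNK : (N : K) ≠ 0 := by
    intro h0
    have h1 : p ∣ N := (CharP.cast_eq_zero_iff K p N).mp h0
    have h2 : (p : ℤ) ∣ a * p + 1 := (Int.natCast_dvd_natCast.mpr h1).trans hap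
    have h3 : (p : ℤ) ∣ 1 := by
      have h4 : (1 : ℤ) = (a * p + 1) - a * p := by ring
      rw [h4]
      exact dvd_sub h2 (Dvd.intro_left _ rfl)
    have h4 := Int.natAbs_dvd_natAbs.mpr h3
    simp only [Int.natAbs_natCast, Int.natAbs_one, Nat.dvd_one] at h4
    exact (Fact.out : p.Prime).one_lt.ne' h4
  have hcastK : ∀ (e t : ℤ) (m : ℤ), (N : ℤ) * e = m + p * t → (N : K) * (e : K) = (m : K) := by
    intro e t m h
    have h1 := congrArg (fun x : ℤ => (x : K)) h
    push_cast at h1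
    rw [CharP.cast_eq_zero K p, zero_mul, add_zero] at h1
    exact h1
  have hAc : ∀ j, (resMat α B j).charpoly = ∏ l, (X - C ((E j l : ℕ) : K)) := fun j =>
    (hlam j).eq_prod hNK fun l => by
      have := hcastK _ _ _ (ht j l)
      exact_mod_cast this
  have hAsc : (infMat n B u).charpoly = ∏ l, (X - C ((F l : ℕ) : K)) :=
    hphi.eq_prod hNK fun l => by
      have := hcastK _ _ _ (ht' l)
      exact_mod_cast this
  -- monotonicity
  have hmono : ∀ j l l', l ≤ l' → E j l ≤ E j l' := by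
    intro j l l' hll
    have h1 := ht j l
    have h2 := ht j l'
    have h3 := (abs_le.mp (hM j l)).2
    have h4 := (abs_le.mp (hM j l')).1
    have h6 : (N : ℤ) * E j l ≤ N * E j l' := by
      rcases hsort j l l' hll with h | ⟨h, h'⟩
      · have h7 : (p : ℤ) * wI N a (e j l) + p ≤ p * wI N a (e j l') := by nlinarith
        linarith
      · rw [h1, h2, h]; linarith
    exact_mod_cast le_of_mul_le_mul_left h6 hNpos
  have hmono' : ∀ l l', l ≤ l' → F l ≤ F l' := by
    intro l l' hll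
    have h1 := ht' l
    have h2 := ht' l'
    have h3 := (abs_le.mp (hM' l)).2
    have h4 := (abs_le.mp (hM' l')).1
    have h6 : (N : ℤ) * F l ≤ N * F l' := by
      rcases hsort' l l' hll with h | ⟨h, h'⟩
      · have h7 : (p : ℤ) * wI N a (e' l) + p ≤ p * wI N a (e' l') := by nlinarith
        linarith
      · rw [h1, h2, h]; linarith
    exact_mod_cast le_of_mul_le_mul_left h6 hNpos
  -- the trace
  have hc' : (p : ℤ) * c = ∑ j, ∑ l, (E j l : ℤ) + ∑ i, (u i : ℤ) - ∑ l, (F l : ℤ) := by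
    apply mul_left_cancel₀ hNpos.ne'
    rw [mul_sub, mul_add, Finset.mul_sum, Finset.mul_sum Finset.univ (fun l => (F l : ℤ))]
    have h1 : ∑ j, (N : ℤ) * ∑ l, (E j l : ℤ) = ∑ j, ∑ l, (e j l + p * wI N a (e j l)) := by
      refine Finset.sum_congr rfl fun j _ => ?_
      rw [Finset.mul_sum]
      exact Finset.sum_congr rfl fun l _ => ht j l
    have h2 : ∑ l, (N : ℤ) * (F l : ℤ) = ∑ l, (e' l + p * wI N a (e' l)) :=
      Finset.sum_congr rfl fun l _ => ht' l
    rw [h1, h2]
    simp only [Finset.sum_add_distrib, ← Finset.mul_sum]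
    linear_combination (p : ℤ) * (-hc) - htr
  refine ⟨E, F, ht, ht', hmono, hmono', hflt, ?_⟩
  intro k L κ q s hcond
  refine core_fam hα hfull E helt hAc hB F hflt hAsc c hc' L (fun j b => E j (κ j b))
    (fun j b => (helt j _).le) (fun b => (p : ℤ) * q b + F (s b)) ?_
  have h1 : ∀ j b, ((Finset.univ.filter fun i => E j i < E j (κ j b)).card : ℤ) ≤
      ((κ j b : ℕ) : ℤ) := by
    intro j b
    have h2 : (Finset.univ.filter fun i => E j i < E j (κ j b)) ⊆ Finset.Iio (κ j b) := by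
      intro i hi
      rw [Finset.mem_filter] at hi
      rw [Finset.mem_Iio]
      by_contra hcon
      exact absurd (hmono j _ _ (not_lt.mp hcon)) (not_le.mpr hi.2)
    have h3 := Finset.card_le_card h2
    rw [Fin.card_Iio] at h3
    exact_mod_cast h3
  have h2 : ∀ b, q b * r + (s b : ℕ) + 1 ≤ ∑ i, (((p : ℤ) * q b + F (s b) - F i) / p + 1) := by
    intro b
    have h2 : ∀ i, q b + (if F i ≤ F (s b) then 1 else 0) ≤
        ((p : ℤ) * q b + F (s b) - F i) / p + 1 := by
      intro i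
      have h3 : (p : ℤ) * q b + F (s b) - F i = (F (s b) - F i) + p * q b := by ring
      rw [h3, Int.add_mul_ediv_left _ _ hp0.ne']
      have h4 := hflt i
      have h5 := hflt (s b)
      split_ifs with h6
      · have h7 : (0 : ℤ) ≤ ((F (s b) : ℤ) - F i) / p := Int.ediv_nonneg (by omega) hp0.le
        linarith
      · have h7 : (-1 : ℤ) ≤ ((F (s b) : ℤ) - F i) / p := by
          rw [Int.le_ediv_iff_mul_le hp0]; omega
        linarith
    have h3 : ((s b : ℕ) : ℤ) + 1 ≤ ((Finset.univ.filter fun i => F i ≤ F (s b)).card : ℤ) := by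
      have h4 : Finset.Iic (s b) ⊆ (Finset.univ.filter fun i => F i ≤ F (s b)) := by
        intro i hi
        rw [Finset.mem_Iic] at hi
        exact Finset.mem_filter.mpr ⟨Finset.mem_univ _, hmono' _ _ hi⟩
      have h5 := Finset.card_le_card h4
      rw [Fin.card_Iic] at h5
      exact_mod_cast h5
    calc q b * r + (s b : ℕ) + 1
        ≤ q b * r + ((Finset.univ.filter fun i => F i ≤ F (s b)).card : ℤ) := by linarith
      _ = ∑ i, (q b + (if F i ≤ F (s b) then 1 else 0)) := by
          rw [Finset.sum_add_distrib, Finset.sum_const, Finset.card_univ, Fintype.card_fin,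
            nsmul_eq_mul, Finset.sum_boole]
          ring
      _ ≤ _ := Finset.sum_le_sum fun i _ => h2 i
  calc ∑ j, ∑ b, ((Finset.univ.filter fun i => E j i < E j (κ j b)).card : ℤ) + k * c
      ≤ ∑ j, ∑ b, ((κ j b : ℕ) : ℤ) + k * c := by
        have := Finset.sum_le_sum fun j (_ : j ∈ Finset.univ) =>
          Finset.sum_le_sum fun b (_ : b ∈ (Finset.univ : Finset (Fin k))) => h1 j b
        linarith
    _ < ∑ b, (q b * r + (s b : ℕ) + 1) := hcond
    _ ≤ _ := Finset.sum_le_sum fun b _ => h2 b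

end

end Pool.Agent.TH829.PC
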