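import Pool.Agent.W280.PE.Ineq
import Pool.Agent.TH829.PC.Point2

set_option autoImplicit false
set_option maxHeartbeats 4000000

/-!
The inequalities at one prime, with additional points with integral exponents (helper829).
-/

open Polynomial

namespace Pool.Agent.TH829.PC

open Pool.Agent.W432.WB Pool.Agent.W280.PE Pool.Agent.W280.PC

section

variable {n r : ℕ}

/-- the points other than `j0`, `j1` -/
def others (j0 j1 : Fin n) : Finset (Fin n) := Finset.univ.filter fun j => j ≠ j0 ∧ j ≠ j1

lemma mem_others {j0 j1 j : Fin n} : j ∈ others j0 j1 ↔ j ≠ j0 ∧ j ≠ j1 := by simp [others]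

lemma sum_others {A : Type*} [AddCommMonoid A] {j0 j1 : Fin n} (h : j0 ≠ j1) (f : Fin n → A) :
    ∑ j, f j = f j0 + f j1 + ∑ j ∈ others j0 j1, f j := by
  classical
  have h1 : (Finset.univ : Finset (Fin n)) = insert j0 (insert j1 (others j0 j1)) := by
    ext j
    simp only [Finset.mem_univ, Finset.mem_insert, mem_others, true_iff]
    by_cases h1 : j = j0
    · exact Or.inl h1
    · by_cases h2 : j = j1
      · exact Or.inr (Or.inl h2)
      · exact Or.inr (Or.inr ⟨h1, h2⟩)
  rw [h1, Finset.sum_insert, Finset.sum_insert, add_assoc]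
  · rw [mem_others]; exact fun h2 => h2.2 rfl
  · rw [Finset.mem_insert, mem_others]
    rintro (h2 | h2)
    · exact h h2
    · exact h2.1 rfl

variable {K : Type*} [Field K]

lemma prod_dvd_others {α : Fin n → K} (hα : Function.Injective α) (s : Finset (Fin n))
    (hh : Fin n → ℕ) {P : K[X]} (h : ∀ j ∈ s, (X - C (α j)) ^ hh j ∣ P) :
    ∏ j ∈ s, (X - C (α j)) ^ hh j ∣ P := by
  refine Finset.prod_dvd_of_coprime ?_ h
  intro i _ j _ hij
  exact (isCoprime_X_sub_C_of_isUnit_sub
    (sub_ne_zero.mpr fun h1 => hij (hα h1)).isUnit).pow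

lemma natDegree_prod_others (α : Fin n → K) (s : Finset (Fin n)) (hh : Fin n → ℕ) :
    (∏ j ∈ s, (X - C (α j)) ^ hh j).natDegree = ∑ j ∈ s, hh j := by
  rw [natDegree_prod_of_monic _ _ fun j _ => (monic_X_sub_C (α j)).pow _]
  exact Finset.sum_congr rfl fun j _ => by rw [natDegree_pow, natDegree_X_sub_C, mul_one]

lemma coprime_others {α : Fin n → K} (hα : Function.Injective α) {s : Finset (Fin n)} {j : Fin n}
    (hj : j ∉ s) (hh : Fin n → ℕ) (t : ℕ) :
    IsCoprime ((X - C (α j)) ^ t) (∏ i ∈ s, (X - C (α i)) ^ hh i) := by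
  refine IsCoprime.prod_right fun i hi => ?_
  refine (isCoprime_X_sub_C_of_isUnit_sub
    (sub_ne_zero.mpr fun h1 => hj ?_).isUnit).pow
  rw [hα h1]; exact hi

/-- The integral inequalities at one large prime. -/
theorem ineqs_at2 [NeZero r] [IsAlgClosed K] {p : ℕ}
    [Fact p.Prime] [CharP K p] {α : Fin n → K} (hα : Function.Injective α)
    {B : Matrix (Fin r) (Fin r) K[X]} {u : Fin r → ℕ} (hB : WDeg n B u) (hfull : Full α B)
    {N : ℕ} (hN : 1 < N) {a : ℤ} (hap : (N : ℤ) ∣ a * p + 1)
    {e : Fin n → Fin r → ℤ} {e' : Fin r → ℤ}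
    (hlam : ∀ j, RedExp N (resMat α B j).charpoly (e j))
    (hphi : RedExp N (infMat n B u).charpoly e')
    (htr : ∑ j, ∑ l, e j l + N * ∑ i, (u i : ℤ) = ∑ l, e' l)
    {M : ℤ} (hM : ∑ j, ∑ l, |e j l| + ∑ l, |e' l| ≤ M) (hpM : 8 * M < p)
    (hsort : ∀ j l l', l ≤ l' → wI N a (e j l) < wI N a (e j l') ∨
      (wI N a (e j l) = wI N a (e j l') ∧ e j l ≤ e j l'))
    (hsort' : ∀ l l', l ≤ l' → wI N a (e' l) < wI N a (e' l') ∨
      (wI N a (e' l) = wI N a (e' l') ∧ e' l ≤ e' l'))
    {j0 j1 : Fin n} (h01 : j0 ≠ j1) (ki : Fin n → Fin r) (g : Fin n → ℤ)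
    (hg : ∀ j, j ≠ j0 → j ≠ j1 → ∑ l, wI N a (e j l) + ((ki j : ℕ) : ℤ) * N = r * g j * N ∧
      wI N a (e j (ki j)) = g j * N)
    (m : ℤ) (hm : ∑ l, wI N a (e j0 l) + ∑ l, wI N a (e j1 l) - ∑ l, wI N a (e' l) = m * N) :
    (∀ i k : Fin r, ext N (fun l => wI N a (e j0 l)) ((i : ℕ) : ℤ) +
      ext N (fun l => wI N a (e j1 l)) ((k : ℕ) : ℤ) ≤
      ext N (fun l => wI N a (e' l)) (m + (i : ℕ) + (k : ℕ))) ∧
    (∀ (i i' k k' : Fin r) (S1 S2 : ℤ), i ≤ i' → k ≤ k' → S2 ≤ S1 →
      ((i' : ℕ) : ℤ) + (i : ℕ) + (k' : ℕ) + (k : ℕ) + 2 * m < S1 + S2 + 2 →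
      (wI N a (e j0 i) + wI N a (e j0 i') + wI N a (e j1 k) + wI N a (e j1 k') ≤
        ext N (fun l => wI N a (e' l)) S1 + ext N (fun l => wI N a (e' l)) S2) ∨
      (wI N a (e j0 i) + wI N a (e j1 k') ≤ ext N (fun l => wI N a (e' l)) S2) ∨
      (wI N a (e j0 i') + wI N a (e j1 k) ≤ ext N (fun l => wI N a (e' l)) S2) ∨
      (wI N a (e j0 i') + wI N a (e j1 k') ≤ ext N (fun l => wI N a (e' l)) S1) ∨
      (wI N a (e j0 i) + wI N a (e j1 k) ≤ ext N (fun l => wI N a (e' l)) S1 - N)) := by
  classical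
  have hr : (0 : ℤ) < r := by exact_mod_cast Nat.pos_of_ne_zero (NeZero.ne r)
  have hp0 : (0 : ℤ) < p := by exact_mod_cast (Fact.out : p.Prime).pos
  have hNpos : (0 : ℤ) < N := by exact_mod_cast (by omega : 0 < N)
  -- bounds
  have hb1 : ∀ j l, |e j l| ≤ ∑ l, |e j l| := fun j l =>
    Finset.single_le_sum (f := fun l => |e j l|) (fun _ _ => abs_nonneg _) (Finset.mem_univ l)
  have hnn : 0 ≤ ∑ l, |e' l| := Finset.sum_nonneg fun _ _ => abs_nonneg _
  have hnn' : 0 ≤ ∑ j, ∑ l, |e j l| :=
    Finset.sum_nonneg fun _ _ => Finset.sum_nonneg fun _ _ => abs_nonneg _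
  have hbj : ∀ j l, |e j l| ≤ M := by
    intro j l
    have h2 : ∑ l, |e j l| ≤ ∑ j, ∑ l, |e j l| :=
      Finset.single_le_sum (f := fun j => ∑ l, |e j l|)
        (fun _ _ => Finset.sum_nonneg fun _ _ => abs_nonneg _) (Finset.mem_univ j)
    linarith [hb1 j l]
  have hbe : ∀ l, |e' l| ≤ M := by
    intro l
    have h1 : |e' l| ≤ ∑ l, |e' l| :=
      Finset.single_le_sum (f := fun l => |e' l|) (fun _ _ => abs_nonneg _) (Finset.mem_univ l)
    linarith
  set s := others j0 j1 with hs
  set he : ℤ := ∑ j ∈ s, e j (ki j) with hhe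
  have hbh : |he| ≤ M := by
    have h1 : |he| ≤ ∑ j ∈ s, |e j (ki j)| := Finset.abs_sum_le_sum_abs _ _
    have h2 : ∑ j ∈ s, |e j (ki j)| ≤ ∑ j ∈ s, ∑ l, |e j l| :=
      Finset.sum_le_sum fun j _ => hb1 j _
    have h3 : ∑ j ∈ s, ∑ l, |e j l| ≤ ∑ j, ∑ l, |e j l| :=
      Finset.sum_le_sum_of_subset_of_nonneg (Finset.subset_univ _) fun _ _ _ =>
        Finset.sum_nonneg fun _ _ => abs_nonneg _
    linarith
  set G : ℤ := ∑ j ∈ s, g j with hG
  have hM0 : 0 ≤ M := (abs_nonneg _).trans hbh
  -- the number `c`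
  set c : ℤ := m + r * G - ∑ j ∈ s, ((ki j : ℕ) : ℤ) with hc
  have hcc : ∑ j, ∑ l, wI N a (e j l) - ∑ l, wI N a (e' l) = c * N := by
    rw [sum_others h01]
    have h1 : ∑ j ∈ s, ∑ l, wI N a (e j l) = ∑ j ∈ s, (r * g j * N - ((ki j : ℕ) : ℤ) * N) := by
      refine Finset.sum_congr rfl fun j hj => ?_
      have := (hg j (mem_others.1 hj).1 (mem_others.1 hj).2).1
      linarith
    rw [← hs, h1, Finset.sum_sub_distrib, ← Finset.sum_mul, ← Finset.sum_mul, ← Finset.mul_sum,
      ← hG, hc]
    linear_combination hm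
  obtain ⟨E, F, hE, hF, mE, mF, hFp, hfam⟩ := fam_point2 hα hB hfull hN hap hlam hphi htr hbj hbe
    (by linarith) hsort hsort' c hcc
  -- degrees
  have hdeg : ∀ S : ℤ, (N : ℤ) * (p * (S / r) + F (im r S)) =
      e' (im r S) + p * ext N (fun l => wI N a (e' l)) S := by
    intro S
    unfold Pool.Agent.W280.PE.ext
    linear_combination hF (im r S)
  have hSrtF : Srt (p : ℤ) (fun l => (F l : ℤ)) := by
    intro l l'
    constructor
    · intro hl
      have := mF l l' hl
      dsimp only
      exact_mod_cast this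
    · have := hFp l'
      dsimp only
      omega
  have hdmono : ∀ S1 S2 : ℤ, S2 ≤ S1 → (p : ℤ) * (S2 / r) + F (im r S2) ≤
      p * (S1 / r) + F (im r S1) := by
    intro S1 S2 hS
    have := ext_mono hp0 hSrtF hS
    unfold Pool.Agent.W280.PE.ext at this
    linarith
  have hb : ∀ j l, -M ≤ e j l ∧ e j l ≤ M := fun j l => abs_le.mp (hbj j l)
  have hb' : ∀ l, -M ≤ e' l ∧ e' l ≤ M := fun l => abs_le.mp (hbe l)
  have hbh' := abs_le.mp hbh
  -- the common factor
  set P : K[X] := ∏ j ∈ s, (X - C (α j)) ^ E j (ki j) with hP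
  have hP0 : P ≠ 0 := Finset.prod_ne_zero_iff.mpr fun j _ => pow_ne_zero _ (X_sub_C_ne_zero _)
  set H : ℕ := ∑ j ∈ s, E j (ki j) with hH
  have hPd : P.natDegree = H := natDegree_prod_others α s fun j => E j (ki j)
  have hNH : (N : ℤ) * H = he + p * (G * N) := by
    rw [hH, hhe, hG]
    push_cast
    rw [Finset.mul_sum, Finset.sum_mul, Finset.mul_sum, ← Finset.sum_add_distrib]
    refine Finset.sum_congr rfl fun j hj => ?_
    rw [hE, (hg j (mem_others.1 hj).1 (mem_others.1 hj).2).2]
  have hZ : ∀ S : ℤ, ext N (fun l => wI N a (e' l)) (S + r * G) =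
      ext N (fun l => wI N a (e' l)) S + N * G := fun S => ext_add S G
  have hj0 : j0 ∉ s := fun h => (mem_others.1 h).1 rfl
  have hj1 : j1 ∉ s := fun h => (mem_others.1 h).2 rfl
  have hα01 : α j0 ≠ α j1 := fun h => h01 (hα h)
  constructor
  · intro i k
    set S : ℤ := m + (i : ℕ) + (k : ℕ) with hS
    obtain ⟨W, hW0, hWs, hWd, hWv⟩ := hfam 1 (fun _ => 1)
      (fun j _ => if j = j0 then i else if j = j1 then k else ki j)
      (fun _ => (S + r * G) / r) (fun _ => im r (S + r * G)) (by
        simp only [Fin.sum_univ_one]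
        rw [sum_others h01, im_val, if_pos rfl, if_neg h01.symm, if_pos rfl]
        have h1 : ∑ j ∈ others j0 j1, (((if j = j0 then i else if j = j1 then k else ki j : Fin r)
            : ℕ) : ℤ) = ∑ j ∈ s, ((ki j : ℕ) : ℤ) := by
          refine Finset.sum_congr rfl fun j hj => ?_
          rw [if_neg (mem_others.1 hj).1, if_neg (mem_others.1 hj).2]
        rw [h1, hc]
        have := Int.mul_ediv_add_emod (S + r * G) r
        push_cast
        linarith)
    obtain ⟨b, hb1⟩ := Function.ne_iff.mp hW0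
    obtain ⟨l, hl⟩ := Function.ne_iff.mp hb1
    have hb0 : b = 0 := Subsingleton.elim _ _
    subst hb0
    have kv : ∀ j, (X - C (α j)) ^ E j (if j = j0 then i else if j = j1 then k else ki j) ∣
        W 0 l := by
      intro j
      have := hWv j 0 l
      simpa only [Fin.sum_univ_one, Matrix.one_apply_eq, C_1, one_mul] using this
    have kd := prod_dvd_others hα Finset.univ
      (fun j => E j (if j = j0 then i else if j = j1 then k else ki j)) (fun j _ => kv j)
    have k3 := natDegree_le_of_dvd kd hl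
    rw [natDegree_prod_others, sum_others h01, if_pos rfl, if_neg h01.symm, if_pos rfl] at k3
    have h1 : ∑ j ∈ others j0 j1, E j (if j = j0 then i else if j = j1 then k else ki j) = H := by
      refine Finset.sum_congr rfl fun j hj => ?_
      rw [if_neg (mem_others.1 hj).1, if_neg (mem_others.1 hj).2]
    rw [h1] at k3
    have k4 := hWd 0 l hl
    have k5 : ((E j0 i + E j1 k + H : ℕ) : ℤ) ≤ ((W 0 l).natDegree : ℤ) := by exact_mod_cast k3
    push_cast at k5
    simp only [ext_natCast]
    have k6 := le_of_scaled (p := p) (M := 8 * M)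
      (E := N * (E j0 i + E j1 k + H - (p * ((S + r * G) / r) + F (im r (S + r * G)))))
      (w := wI N a (e j0 i) + wI N a (e j1 k) - ext N (fun l => wI N a (e' l)) S)
      (S := e j0 i + e j1 k + he - e' (im r (S + r * G))) hp0 hpM
      (by linarith [(hb j0 i).1, (hb j1 k).1, (hb' (im r (S + r * G))).2, hbh'.1])
      (by linear_combination hE j0 i + hE j1 k + hNH - hdeg (S + r * G) - p * hZ S)
      (mul_nonpos_of_nonneg_of_nonpos hNpos.le (by linarith))
    linarith
  · intro i i' k k' S1 S2 hii hkk hSS hcount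
    obtain ⟨W, hW0, hWs, hWd, hWv⟩ := hfam 2
      (fun j => if j = j1 then !![1, 1; 1, 0] else 1)
      (fun j => if j = j0 then ![i', i] else if j = j1 then ![k', k] else fun _ => ki j)
      ![(S1 + r * G) / r, (S2 + r * G) / r] ![im r (S1 + r * G), im r (S2 + r * G)] (by
        rw [sum_others h01, if_pos rfl, if_neg h01.symm, if_pos rfl]
        have h1 : ∑ j ∈ others j0 j1, ∑ b, (((if j = j0 then ![i', i] else
            if j = j1 then ![k', k] else fun _ => ki j : Fin 2 → Fin r) b : ℕ) : ℤ) =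
            2 * ∑ j ∈ s, ((ki j : ℕ) : ℤ) := by
          rw [Finset.mul_sum]
          refine Finset.sum_congr rfl fun j hj => ?_
          rw [if_neg (mem_others.1 hj).1, if_neg (mem_others.1 hj).2, Fin.sum_univ_two]
          ring
        rw [h1, hc]
        simp only [Fin.sum_univ_two, Matrix.cons_val_zero, Matrix.cons_val_one]
        rw [im_val, im_val]
        have e1 := Int.mul_ediv_add_emod (S1 + r * G) r
        have e2 := Int.mul_ediv_add_emod (S2 + r * G) r
        push_cast
        linarith)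
    have hPW : ∀ b l, P ∣ W b l := by
      intro b l
      refine prod_dvd_others hα s _ fun j hj => ?_
      have := hWv j b l
      rw [if_neg (mem_others.1 hj).1, if_neg (mem_others.1 hj).2, if_neg (mem_others.1 hj).2] at this
      simpa [Matrix.one_apply] using this
    choose V hV using hPW
    have hW : V 0 ≠ 0 ∨ V 1 ≠ 0 := by
      by_contra hcon
      push Not at hcon
      apply hW0
      ext1 b
      ext1 l
      rw [hV]
      fin_cases b
      · simp [hcon.1]
      · simp [hcon.2]
    have hV' : ∀ b, (fun l => P * V b l) = W b := fun b => funext fun l => (hV b l).symm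
    have hs0 : Sol α B (fun l => P * V 0 l) := by rw [hV']; exact hWs 0
    have hs1 : Sol α B (fun l => P * V 1 l) := by rw [hV']; exact hWs 1
    have kx1 : ∀ l, (X - C (α j0)) ^ E j0 i' ∣ V 0 l := by
      intro l
      have := hWv j0 0 l
      rw [if_pos rfl, if_neg h01] at this
      simp only [Fin.sum_univ_two, Matrix.one_apply_eq, C_1, one_mul, Matrix.cons_val_zero,
        Matrix.one_apply_ne (show (0 : Fin 2) ≠ 1 by decide), C_0, zero_mul, add_zero] at this
      rw [hV] at this
      exact (coprime_others hα hj0 _ _).dvd_of_dvd_mul_left this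
    have kx2 : ∀ l, (X - C (α j0)) ^ E j0 i ∣ V 1 l := by
      intro l
      have := hWv j0 1 l
      rw [if_pos rfl, if_neg h01] at this
      simp only [Fin.sum_univ_two, Matrix.one_apply_eq, C_1, one_mul, Matrix.cons_val_one,
        Matrix.one_apply_ne (show (1 : Fin 2) ≠ 0 by decide), C_0, zero_mul, zero_add] at this
      rw [hV] at this
      exact (coprime_others hα hj0 _ _).dvd_of_dvd_mul_left this
    have ky1 : ∀ l, (X - C (α j1)) ^ E j1 k' ∣ V 0 l + V 1 l := by
      intro l
      have := hWv j1 0 l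
      rw [if_neg h01.symm, if_pos rfl, if_pos rfl] at this
      simp only [Fin.sum_univ_two, Matrix.of_apply, Matrix.cons_val_zero, Matrix.cons_val_one,
        C_1, one_mul] at this
      rw [hV, hV, ← mul_add] at this
      exact (coprime_others hα hj1 _ _).dvd_of_dvd_mul_left this
    have ky2 : ∀ l, (X - C (α j1)) ^ E j1 k ∣ V 0 l := by
      intro l
      have := hWv j1 1 l
      rw [if_neg h01.symm, if_pos rfl, if_pos rfl] at this
      simp only [Fin.sum_univ_two, Matrix.of_apply, Matrix.cons_val_zero, Matrix.cons_val_one,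
        C_1, one_mul, C_0, zero_mul, add_zero] at this
      rw [hV] at this
      exact (coprime_others hα hj1 _ _).dvd_of_dvd_mul_left this
    have hVd : ∀ b l, V b l ≠ 0 → ((V b l).natDegree : ℤ) + H = (W b l).natDegree := by
      intro b l hl
      rw [hV, natDegree_mul hP0 hl, hPd]
      push_cast
      ring
    have hVW : ∀ b l, V b l ≠ 0 → W b l ≠ 0 := by
      intro b l hl
      rw [hV]
      exact mul_ne_zero hP0 hl
    have d1 : ∀ l, V 0 l ≠ 0 → ((V 0 l).natDegree : ℤ) ≤
        p * ((S1 + r * G) / r) + F (im r (S1 + r * G)) - H := by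
      intro l hl
      have h1 := hWd 0 l (hVW 0 l hl)
      have h2 := hVd 0 l hl
      simp only [Matrix.cons_val_zero] at h1
      linarith
    have d2 : ∀ l, V 1 l ≠ 0 → ((V 1 l).natDegree : ℤ) ≤
        p * ((S2 + r * G) / r) + F (im r (S2 + r * G)) - H := by
      intro l hl
      have h1 := hWd 1 l (hVW 1 l hl)
      have h2 := hVd 1 l hl
      simp only [Matrix.cons_val_one, Matrix.cons_val_zero] at h1
      linarith
    have halt := two_alt2 (p := p) hα01 hP0 hW hs0 hs1
      (by linarith [hdmono (S1 + r * G) (S2 + r * G) (by linarith)]) d1 d2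
      (mE j0 i i' hii) (mE j1 k k' hkk) kx1 kx2 ky1 ky2
    have c0 := hb j0 i
    have c1 := hb j0 i'
    have c2 := hb j1 k
    have c3 := hb j1 k'
    have c4 := hb' (im r (S1 + r * G))
    have c5 := hb' (im r (S2 + r * G))
    rcases halt with h | h | h | h | h
    · left
      have k6 := le_of_scaled (p := p) (M := 8 * M)
        (E := N * (E j0 i + E j0 i' + E j1 k + E j1 k' -
          (p * ((S1 + r * G) / r) + F (im r (S1 + r * G)) - H)
          - (p * ((S2 + r * G) / r) + F (im r (S2 + r * G)) - H)))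
        (w := wI N a (e j0 i) + wI N a (e j0 i') + wI N a (e j1 k) + wI N a (e j1 k') -
          ext N (fun l => wI N a (e' l)) S1 - ext N (fun l => wI N a (e' l)) S2)
        (S := e j0 i + e j0 i' + e j1 k + e j1 k' - e' (im r (S1 + r * G)) -
          e' (im r (S2 + r * G)) + 2 * he) hp0 hpM
        (by linarith)
        (by linear_combination hE j0 i + hE j0 i' + hE j1 k + hE j1 k' - hdeg (S1 + r * G) -
          hdeg (S2 + r * G) + 2 * hNH - p * hZ S1 - p * hZ S2)
        (mul_nonpos_of_nonneg_of_nonpos hNpos.le (by linarith))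
      linarith
    · right; left
      have k6 := le_of_scaled (p := p) (M := 8 * M)
        (E := N * (E j0 i + E j1 k' - (p * ((S2 + r * G) / r) + F (im r (S2 + r * G)) - H)))
        (w := wI N a (e j0 i) + wI N a (e j1 k') - ext N (fun l => wI N a (e' l)) S2)
        (S := e j0 i + e j1 k' - e' (im r (S2 + r * G)) + he) hp0 hpM (by linarith)
        (by linear_combination hE j0 i + hE j1 k' - hdeg (S2 + r * G) + hNH - p * hZ S2)
        (mul_nonpos_of_nonneg_of_nonpos hNpos.le (by linarith))
      linarith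
    · right; right; left
      have k6 := le_of_scaled (p := p) (M := 8 * M)
        (E := N * (E j0 i' + E j1 k - (p * ((S2 + r * G) / r) + F (im r (S2 + r * G)) - H)))
        (w := wI N a (e j0 i') + wI N a (e j1 k) - ext N (fun l => wI N a (e' l)) S2)
        (S := e j0 i' + e j1 k - e' (im r (S2 + r * G)) + he) hp0 hpM (by linarith)
        (by linear_combination hE j0 i' + hE j1 k - hdeg (S2 + r * G) + hNH - p * hZ S2)
        (mul_nonpos_of_nonneg_of_nonpos hNpos.le (by linarith))
      linarith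
    · right; right; right; left
      have k6 := le_of_scaled (p := p) (M := 8 * M)
        (E := N * (E j0 i' + E j1 k' - (p * ((S1 + r * G) / r) + F (im r (S1 + r * G)) - H)))
        (w := wI N a (e j0 i') + wI N a (e j1 k') - ext N (fun l => wI N a (e' l)) S1)
        (S := e j0 i' + e j1 k' - e' (im r (S1 + r * G)) + he) hp0 hpM (by linarith)
        (by linear_combination hE j0 i' + hE j1 k' - hdeg (S1 + r * G) + hNH - p * hZ S1)
        (mul_nonpos_of_nonneg_of_nonpos hNpos.le (by linarith))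
      linarith
    · right; right; right; right
      have k6 := le_of_scaled (p := p) (M := 8 * M)
        (E := N * (E j0 i + E j1 k -
          (p * ((S1 + r * G) / r) + F (im r (S1 + r * G)) - H - p)))
        (w := wI N a (e j0 i) + wI N a (e j1 k) - ext N (fun l => wI N a (e' l)) S1 + N)
        (S := e j0 i + e j1 k - e' (im r (S1 + r * G)) + he) hp0 hpM (by linarith)
        (by linear_combination hE j0 i + hE j1 k - hdeg (S1 + r * G) + hNH - p * hZ S1)
        (mul_nonpos_of_nonneg_of_nonpos hNpos.le (by linarith))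
      linarith

end

end Pool.Agent.TH829.PC
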