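import Pool.Agent.W280.PE.Both
import Pool.Agent.TH829.PC.Ineq2

set_option autoImplicit false
set_option maxHeartbeats 4000000

/-!
From the inequalities at one prime to the data attached to a residue class (helper829).
-/

open Polynomial

namespace Pool.Agent.TH829.PC

open Pool.Agent.W280.PE Pool.Agent.W280.PC

/-- The inequalities in one class in abstract form. -/
theorem half_abs {r : ℕ} [NeZero r] {N : ℕ} (hN0 : 0 < N) {x y z : Fin r → ℤ}
    (s2 : Srt (N : ℤ) z) (m : ℤ)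
    (hA : ∀ i k : Fin r, W280.PE.ext N x ((i : ℕ) : ℤ) + W280.PE.ext N y ((k : ℕ) : ℤ) ≤
      W280.PE.ext N z (m + (i : ℕ) + (k : ℕ)))
    (hB : ∀ (i i' k k' : Fin r) (S1 S2 : ℤ), i ≤ i' → k ≤ k' → S2 ≤ S1 →
      ((i' : ℕ) : ℤ) + (i : ℕ) + (k' : ℕ) + (k : ℕ) + 2 * m < S1 + S2 + 2 →
      (x i + x i' + y k + y k' ≤ W280.PE.ext N z S1 + W280.PE.ext N z S2) ∨
      (x i + y k' ≤ W280.PE.ext N z S2) ∨
      (x i' + y k ≤ W280.PE.ext N z S2) ∨
      (x i' + y k' ≤ W280.PE.ext N z S1) ∨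
      (x i + y k ≤ W280.PE.ext N z S1 - N)) :
    I1 r (W280.PE.ext N x) (W280.PE.ext N y) (fun l => -W280.PE.ext N z (m + r - 1 - l)) ∧
      I2 r (W280.PE.ext N x) (W280.PE.ext N y) (fun l => -W280.PE.ext N z (m + r - 1 - l)) := by
  have hN' : (0 : ℤ) < N := by exact_mod_cast hN0
  have hr : (0 : ℤ) < r := by exact_mod_cast Nat.pos_of_ne_zero (NeZero.ne r)
  set X := W280.PE.ext (N : ℤ) x with hX
  set Y := W280.PE.ext (N : ℤ) y with hY
  set Z := W280.PE.ext (N : ℤ) z with hZ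
  have pX : ∀ i q, X (i + r * q) = X i + N * q := fun i q => ext_add i q
  have pY : ∀ i q, Y (i + r * q) = Y i + N * q := fun i q => ext_add i q
  have pZ : ∀ i q, Z (i + r * q) = Z i + N * q := fun i q => ext_add i q
  have mZ : ∀ {i j : ℤ}, i ≤ j → Z i ≤ Z j := fun h => ext_mono hN' s2 h
  have hI1 : I1 r X Y (fun l => -Z (m + r - 1 - l)) := by
    intro i k l hikl
    have hi := Int.mul_ediv_add_emod i r
    have hk := Int.mul_ediv_add_emod k r
    have h1 := hA (im r i) (im r k)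
    rw [im_val, im_val] at h1
    have h2 := pX (i % r) (i / r)
    have h3 := pY (k % r) (k / r)
    have h4 := pZ (m + i % r + k % r) (i / r + k / r)
    rw [show i % r + r * (i / r) = i by linarith] at h2
    rw [show k % r + r * (k / r) = k by linarith] at h3
    rw [show m + i % r + k % r + r * (i / r + k / r) = m + i + k by linarith] at h4
    have h5 : Z (m + i + k) ≤ Z (m + r - 1 - l) := mZ (by linarith)
    dsimp only
    rw [h2, h3]
    linarith
  refine ⟨hI1, ?_⟩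
  refine window2 (C := fun l => -Z (m + r - 1 - l)) hr pX pY (fun i q => ?_) ?_
  · have := pZ (m + r - 1 - i) (-q)
    rw [show m + r - 1 - (i + r * q) = m + r - 1 - i + r * -q by ring, this]
    ring
  · intro i i' k k' l l' c1 c2 c3 c4 c5 c6 c7 c8 c9 c10 c11 c12 c13
    have vi : ((im r i : ℕ) : ℤ) = i := by rw [im_val, Int.emod_eq_of_lt c1 (by linarith)]
    have vi' : ((im r i' : ℕ) : ℤ) = i' := by
      rw [im_val, Int.emod_eq_of_lt (by linarith) c3]
    have vk : ((im r k : ℕ) : ℤ) = k := by rw [im_val, Int.emod_eq_of_lt c4 (by linarith)]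
    have vk' : ((im r k' : ℕ) : ℤ) = k' := by
      rw [im_val, Int.emod_eq_of_lt (by linarith) c6]
    have hB' := hB (im r i) (im r i') (im r k) (im r k') (m + r - 1 - l) (m + r - 1 - l')
      (by rw [Fin.le_def]; have : ((im r i : ℕ) : ℤ) ≤ (im r i' : ℕ) := by rw [vi, vi']; exact c2.le
          exact_mod_cast this)
      (by rw [Fin.le_def]; have : ((im r k : ℕ) : ℤ) ≤ (im r k' : ℕ) := by rw [vk, vk']; exact c5.le
          exact_mod_cast this)
      (by linarith) (by rw [vi, vi', vk, vk']; linarith)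
    have xi : x (im r i) = X i := by
      rw [← vi, hX, ext_natCast, vi]
    have xi' : x (im r i') = X i' := by
      rw [← vi', hX, ext_natCast, vi']
    have yk : y (im r k) = Y k := by
      rw [← vk, hY, ext_natCast, vk]
    have yk' : y (im r k') = Y k' := by
      rw [← vk', hY, ext_natCast, vk']
    rw [xi, xi', yk, yk'] at hB'
    by_contra hG
    push Not at hG
    rcases hB' with h | h | h | h | h
    · linarith
    · have := hI1 i' k l c10
      dsimp only at this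
      linarith
    · have := hI1 i k' l c11
      dsimp only at this
      linarith
    · have := hI1 i k l' c12
      dsimp only at this
      linarith
    · have h1 := hI1 i' k' (l' - r) (by linarith)
      dsimp only at h1
      have h2 := pZ (m + r - 1 - l') 1
      rw [show m + r - 1 - (l' - r) = m + r - 1 - l' + r * 1 by ring, h2] at h1
      linarith

/-- What holds in a class that is not bad. -/
structure Half {r : ℕ} [NeZero r] (N : ℕ) (e0 e1 e' : Fin r → ℤ) (a m : ℤ)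
    (σ0 σ1 τ : Equiv.Perm (Fin r)) : Prop where
  s0 : Srt (N : ℤ) (fun l => wI N a (e0 (σ0 l)))
  s1 : Srt (N : ℤ) (fun l => wI N a (e1 (σ1 l)))
  s2 : Srt (N : ℤ) (fun l => wI N a (e' (τ l)))
  i1 : I1 r (W280.PE.ext N (fun l => wI N a (e0 (σ0 l)))) (W280.PE.ext N (fun l => wI N a (e1 (σ1 l))))
    (fun l => -W280.PE.ext N (fun l => wI N a (e' (τ l))) (m + r - 1 - l))
  i2 : I2 r (W280.PE.ext N (fun l => wI N a (e0 (σ0 l)))) (W280.PE.ext N (fun l => wI N a (e1 (σ1 l))))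
    (fun l => -W280.PE.ext N (fun l => wI N a (e' (τ l))) (m + r - 1 - l))

/-- The data attached to a class, from the class and the opposite class. -/
theorem good_abs {r : ℕ} [NeZero r] {N : ℕ} (hN0 : 0 < N) {e0 e1 e' : Fin r → ℤ} {a m m' : ℤ}
    {σ0 σ1 τ σ0' σ1' τ' : Equiv.Perm (Fin r)}
    (hm : ∑ l, wI N a (e0 l) + ∑ l, wI N a (e1 l) - ∑ l, wI N a (e' l) = m * N)
    (hm' : ∑ l, wI N (-a) (e0 l) + ∑ l, wI N (-a) (e1 l) - ∑ l, wI N (-a) (e' l) = m' * N)
    (h : Half N e0 e1 e' a m σ0 σ1 τ) (h' : Half N e0 e1 e' (-a) m' σ0' σ1' τ') :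
    ∃ X Y C, Good N e0 e1 (fun l => -e' l) a X Y C := by
  have hN' : (0 : ℤ) < N := by exact_mod_cast hN0
  obtain ⟨s0, s1, s2, hI1, hI2⟩ := h
  obtain ⟨s0', s1', s2', hI1', hI2'⟩ := h'
  obtain ⟨T0, hT0, g0⟩ := ext_neg_wI hN0 σ0 σ0' s0 s0'
  obtain ⟨T1, hT1, g1⟩ := ext_neg_wI hN0 σ1 σ1' s1 s1'
  obtain ⟨T2, hT2, g2⟩ := ext_neg_wI hN0 τ τ' s2 s2'
  have hmm : m + m' = T0 + T1 - T2 := by
    have : (N : ℤ) * (m + m') = N * (T0 + T1 - T2) := by linarith
    exact mul_left_cancel₀ hN'.ne' this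
  refine ⟨W280.PE.ext N (fun l => wI N a (e0 (σ0 l))), W280.PE.ext N (fun l => wI N a (e1 (σ1 l))),
    fun l => -W280.PE.ext N (fun l => wI N a (e' (τ l))) (m + r - 1 - l), seqOf_ext hN0 σ0 s0,
    seqOf_ext hN0 σ1 s1, seqOf_neg (seqOf_ext hN0 τ s2), ?_, hI1, ?_, hI2, ?_⟩
  · simp only [ext_natCast]
    rw [Finset.sum_neg_distrib, sum_ext_window, Equiv.sum_comp σ0 (fun l => wI N a (e0 l)),
      Equiv.sum_comp σ1 (fun l => wI N a (e1 l)), Equiv.sum_comp τ (fun l => wI N a (e' l))]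
    linarith
  · intro i k l hikl
    have h1 := hI1' (r - 1 - T0 - i) (r - 1 - T1 - k) (2 * (r - 1) + T2 + (m + m') - (r - 1) - l)
      (by rw [hmm]; linarith)
    dsimp only at h1 ⊢
    rw [g0, g1, g2] at h1
    have h2 : (r : ℤ) - 1 - T0 - (r - 1 - T0 - i) = i := by ring
    have h3 : (r : ℤ) - 1 - T1 - (r - 1 - T1 - k) = k := by ring
    have h4 : (r : ℤ) - 1 - T2 - (m' + r - 1 - (2 * (r - 1) + T2 + (m + m') - (r - 1) - l)) =
      m + r - 1 - l := by ring
    rw [h2, h3, h4] at h1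
    linarith
  · intro i i' k k' l l' c1 c2 c3 c4 c5 c6 c7 c8 c9 c10 c11
    have h1 := hI2' (r - 1 - T0 - i') (r - 1 - T0 - i) (r - 1 - T1 - k') (r - 1 - T1 - k)
      (2 * (r - 1) + T2 + (m + m') - (r - 1) - l') (2 * (r - 1) + T2 + (m + m') - (r - 1) - l)
      (by linarith) (by linarith) (by linarith) (by linarith) (by linarith) (by linarith)
      (by rw [hmm]; linarith) (by rw [hmm]; linarith) (by rw [hmm]; linarith)
      (by rw [hmm]; linarith) (by rw [hmm]; linarith)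
    dsimp only at h1 ⊢
    rw [g0, g0, g1, g1, g2, g2] at h1
    have h2 : ∀ i : ℤ, (r : ℤ) - 1 - T0 - (r - 1 - T0 - i) = i := fun i => by ring
    have h3 : ∀ k : ℤ, (r : ℤ) - 1 - T1 - (r - 1 - T1 - k) = k := fun k => by ring
    have h4 : ∀ l : ℤ, (r : ℤ) - 1 - T2 -
      (m' + r - 1 - (2 * (r - 1) + T2 + (m + m') - (r - 1) - l)) = m + r - 1 - l :=
      fun l => by ring
    rw [h2, h2, h3, h3, h4, h4] at h1
    linarith

lemma SeqOf.congr {r : ℕ} {N : ℕ} {e f : Fin r → ℤ} {a : ℤ} {X : ℤ → ℤ} (h : SeqOf N e a X)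
    (hef : ∀ l, (N : ℤ) ∣ e l - f l) : SeqOf N f a X where
  mono := h.mono
  per := h.per
  res := by
    obtain ⟨σ, hσ⟩ := h.res
    refine ⟨σ, fun l => ?_⟩
    have := dvd_add (hσ l) ((hef (σ l)).mul_left a)
    rwa [show X ((l : ℕ) : ℤ) - a * e (σ l) + a * (e (σ l) - f (σ l)) =
      X ((l : ℕ) : ℤ) - a * f (σ l) by ring] at this

lemma Good.congr {r : ℕ} {N : ℕ} {e1 e2 e3 f : Fin r → ℤ} {a : ℤ} {X Y C : ℤ → ℤ}
    (h : Good N e1 e2 e3 a X Y C) (hef : ∀ l, (N : ℤ) ∣ e3 l - f l) : Good N e1 e2 f a X Y C :=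
  ⟨h.sX, h.sY, SeqOf.congr h.sC hef, h.sum, h.i1, h.j1, h.i2, h.j2⟩

end Pool.Agent.TH829.PC
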