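import Pool.Agent.W432.WB.Prime
import Pool.Agent.W280.PC.Affine

set_option autoImplicit false
set_option maxHeartbeats 4000000

/-!
The Weyl inequalities for Fuchsian operators in integral form (helper829).
-/

namespace Pool.Agent.TH829.PC

open Finset Polynomial Pool.Agent.W280.PC Pool.Agent.W432.WB
open Pool.Agent.W432.PC (wt lexLE)

universe u

/-- If the reductions of the operator do not lack a full basis in the class `a`, the inequalities
hold. -/
theorem ineq_op {F : Type u} [Field F] [CharZero F] {m n : ℕ} (hm : 0 < m) (hn : 0 < n)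
    (b : Fin (n + 1) → ℤ[X]) (hb : b (Fin.last n) ≠ 0) (α : Fin m → F) (Q : Fin (n + 1) → F[X])
    (hF : IsFuchs b α Q) (lam : Fin m → Fin n → ℚ) (phi : Fin n → ℚ) (hE : HasExps α Q lam phi)
    (N : ℕ) (hN : 1 < N) (e : Fin m → Fin n → ℤ) (e' : Fin n → ℤ)
    (he : ∀ j l, (N : ℚ) * lam j l = e j l)
    (he' : ∀ l, (N : ℚ) * (phi l + (((n - 1) * (m - 1) : ℕ) : ℚ)) = e' l)
    (a : ℤ) (ha : IsCoprime a (N : ℤ))
    (hres : ∀ (κ : Fin m → Fin n) (s : Fin n), ¬ (N : ℤ) ∣ ∑ j, e j (κ j) - e' s)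
    (hno : ¬ ∃ P₀ : ℕ, ∀ p : ℕ, P₀ < p → (N : ℤ) ∣ a * p + 1 → ∀ _hp : Fact p.Prime,
      ¬ FullMod b p) :
    ∃ (σ : Fin m → Equiv.Perm (Fin n)) (τ : Equiv.Perm (Fin n)),
      (∀ j, Monotone fun l => wI N a (e j (σ j l))) ∧ (Monotone fun l => wI N a (e' (τ l))) ∧
      ∀ (M q : ℤ) (κ : Fin m → Fin n) (s : Fin n),
        ∑ j, ∑ l, wI N a (e j l) - ∑ l, wI N a (e' l) = M * N →
        M + ∑ j, ((κ j : ℕ) : ℤ) = n * q + (s : ℕ) →
        ∑ j, wI N a (e j (σ j (κ j))) < q * N + wI N a (e' (τ s)) := by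
  have hN0 : 0 < N := by omega
  have hNq : (0 : ℚ) < N := by exact_mod_cast hN0
  set ps : Fin n → ℚ := fun l => phi l + (((n - 1) * (m - 1) : ℕ) : ℚ) with hps
  have hep : ∀ l, (N : ℚ) * ps l = e' l := fun l => he' l
  choose σ hσ using fun j => exists_sorted a (lam j)
  obtain ⟨τ, hτ⟩ := exists_sorted a ps
  have hmono : ∀ {x y : ℚ} {u v : ℤ}, (N : ℚ) * x = u → (N : ℚ) * y = v → lexLE a x y →
      wI N a u ≤ wI N a v := by
    intro x y u v hx hy hxy
    have h1 : wt a x ≤ wt a y := by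
      rcases hxy with h | h
      · exact h.le
      · exact h.1.le
    have h2 := mul_le_mul_of_nonneg_left h1 hNq.le
    rw [wt_wI hN0 hx, wt_wI hN0 hy] at h2
    exact_mod_cast h2
  refine ⟨σ, τ, fun j l l' h => hmono (he j _) (he j _) (hσ j l l' h),
    fun l l' h => hmono (hep _) (hep _) (hτ l l' h), ?_⟩
  intro M q κ s hm' hq
  by_contra hcon
  push Not at hcon
  apply hno
  have hw : ∀ j l, wt a (lam j l) = (wI N a (e j l) : ℚ) / N := fun j l => by
    rw [← wt_wI hN0 (he j l)]; field_simp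
  have hw' : ∀ l, wt a (ps l) = (wI N a (e' l) : ℚ) / N := fun l => by
    rw [← wt_wI hN0 (hep l)]; field_simp
  have hq' : ∑ j, ∑ l, wt a (lam j (σ j l)) - ∑ l, wt a (ps (τ l)) + ∑ j, ((κ j : ℕ) : ℚ) =
      q * n + (s : ℕ) := by
    have h1 : ∀ j, ∑ l, wt a (lam j (σ j l)) = ∑ l, wt a (lam j l) := fun j =>
      Equiv.sum_comp (σ j) (fun l => wt a (lam j l))
    have h2 : ∑ l, wt a (ps (τ l)) = ∑ l, wt a (ps l) :=
      Equiv.sum_comp τ (fun l => wt a (ps l))
    rw [Finset.sum_congr rfl (fun j _ => h1 j), h2]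
    simp only [hw, hw']
    have h3 := congrArg (fun x : ℤ => (x : ℚ)) hm'
    have h4 := congrArg (fun x : ℤ => (x : ℚ)) hq
    push_cast at h3 h4
    simp only [← Finset.sum_div]
    rw [← sub_div, h3]
    have h5 : (M : ℚ) * N / N = M := by field_simp
    rw [h5]
    linarith
  have hle' : q + wt a (ps (τ s)) ≤ ∑ j, wt a (lam j (σ j (κ j))) := by
    simp only [hw, hw']
    rw [← Finset.sum_div, le_div_iff₀ hNq]
    have h3 : ((q * N + wI N a (e' (τ s)) : ℤ) : ℚ) ≤ ((∑ j, wI N a (e j (σ j (κ j))) : ℤ) : ℚ) := by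
      exact_mod_cast hcon
    push_cast at h3
    calc ((q : ℚ) + (wI N a (e' (τ s)) : ℚ) / N) * N = q * N + wI N a (e' (τ s)) := by field_simp
      _ ≤ _ := h3
  have hne : q + wt a (ps (τ s)) ≠ ∑ j, wt a (lam j (σ j (κ j))) := by
    intro heq
    simp only [hw, hw'] at heq
    rw [← Finset.sum_div, eq_div_iff hNq.ne'] at heq
    have h3 : ((q * N + wI N a (e' (τ s)) : ℤ) : ℚ) = ((∑ j, wI N a (e j (σ j (κ j))) : ℤ) : ℚ) := by
      push_cast
      rw [← heq]
      field_simp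
    have h4 : q * N + wI N a (e' (τ s)) = ∑ j, wI N a (e j (σ j (κ j))) := by exact_mod_cast h3
    apply hres (fun j => σ j (κ j)) (τ s)
    rw [← coprime_scale ha]
    have h5 : (N : ℤ) ∣ ∑ j, wI N a (e j (σ j (κ j))) - a * ∑ j, e j (σ j (κ j)) := by
      rw [Finset.mul_sum, ← Finset.sum_sub_distrib]
      exact Finset.dvd_sum fun j _ => wI_mod a _
    obtain ⟨y1, hy1⟩ := h5
    obtain ⟨y2, hy2⟩ := wI_mod (D := N) a (e' (τ s))
    exact ⟨q - y1 + y2, by linear_combination -h4 - hy1 + hy2⟩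
  have hE' : HasExps α Q (fun j l => lam j (σ j l)) (fun l => phi (τ l)) := by
    constructor
    · intro j
      rw [hE.1 j]
      congr 1
      exact (Equiv.prod_comp (σ j) (fun l => (X - C ((lam j l : ℚ) : F)))).symm
    · rw [hE.2]
      exact (Equiv.prod_comp τ (fun l => (X - C ((phi l : ℚ) : F)))).symm
  exact main_field hm hn b hb α Q hF (fun j l => lam j (σ j l)) (fun l => phi (τ l)) hE' N hN0
    (fun j l => ⟨_, he j _⟩) (fun l => ⟨e' (τ l) - N * (((n - 1) * (m - 1) : ℕ) : ℤ), by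
      have := he' (τ l)
      push_cast at this ⊢
      linarith⟩) a hσ hτ κ s q hq' hle' (fun heq => absurd heq hne)

end Pool.Agent.TH829.PC
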