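import Pool.Agent.TH829.PC.Good2
import Pool.Agent.TH829.PC.Data2

set_option autoImplicit false
set_option maxHeartbeats 4000000

/-!
The data attached to a residue class for a Fuchsian operator (helper829).
-/

open Polynomial

namespace Pool.Agent.TH829.PC

open Pool.Agent.W432.WB Pool.Agent.W280.PE Pool.Agent.W280.PC

universe u

lemma extra_r {r : ℕ} [NeZero r] {N : ℤ} {w : Fin r → ℤ} (hw : ∀ l l', l ≤ l' → w l ≤ w l')
    (hN : 0 < N) (h : ∀ l, w l = 0 ∨ w l = N) :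
    ∃ (k : Fin r) (g : ℤ), ∑ l, w l + ((k : ℕ) : ℤ) * N = r * g * N ∧ w k = g * N := by
  classical
  set A : Finset (Fin r) := Finset.univ.filter fun l => w l = N with hA
  have hs : ∑ l, w l = (A.card : ℤ) * N := by
    have h1 : ∀ l, w l = if w l = N then N else 0 := by
      intro l
      split_ifs with h2
      · exact h2
      · rcases h l with h3 | h3
        · exact h3
        · exact absurd h3 h2
    rw [Finset.sum_congr rfl (fun l _ => h1 l), ← Finset.sum_filter, Finset.sum_const,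
      nsmul_eq_mul]
  have hle : A.card ≤ r := by
    have := Finset.card_le_univ A
    rwa [Fintype.card_fin] at this
  rcases Nat.eq_zero_or_pos A.card with h0 | h0
  · refine ⟨⟨0, Nat.pos_of_ne_zero (NeZero.ne r)⟩, 0, ?_, ?_⟩
    · rw [hs, h0]; simp
    · rw [zero_mul]
      rcases h ⟨0, Nat.pos_of_ne_zero (NeZero.ne r)⟩ with h1 | h1
      · exact h1
      · exfalso
        rw [Finset.card_eq_zero] at h0
        have h2 : (⟨0, Nat.pos_of_ne_zero (NeZero.ne r)⟩ : Fin r) ∈ A :=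
          Finset.mem_filter.2 ⟨Finset.mem_univ _, h1⟩
        rw [h0] at h2
        simp at h2
  · have hk : r - A.card < r := by omega
    refine ⟨⟨r - A.card, hk⟩, 1, ?_, ?_⟩
    · rw [hs]
      push_cast [Nat.cast_sub hle]
      ring
    · rw [one_mul]
      rcases h ⟨r - A.card, hk⟩ with h1 | h1
      · exfalso
        have hsub : A ⊆ Finset.Ioi (⟨r - A.card, hk⟩ : Fin r) := by
          intro l hl
          rw [Finset.mem_Ioi]
          by_contra hcon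
          have h2 := hw l _ (not_lt.1 hcon)
          rw [h1, (Finset.mem_filter.1 hl).2] at h2
          omega
        have h3 := Finset.card_le_card hsub
        rw [Fin.card_Ioi] at h3
        simp only at h3
        omega
      · exact h1

lemma redExp_perm {K : Type*} [Field K] {r N : ℕ} {P : K[X]} {e : Fin r → ℤ} (h : RedExp N P e)
    (σ : Equiv.Perm (Fin r)) : RedExp N P (fun l => e (σ l)) := by
  unfold RedExp at h ⊢
  rw [h]
  exact (Equiv.prod_comp σ (fun l => C (N : K) * X - C ((e l : ℤ) : K))).symm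

lemma wI_int {N : ℕ} {x : ℤ} (h : (N : ℤ) ∣ x) (a : ℤ) : wI N a x = 0 ∨ wI N a x = N := by
  unfold wI
  by_cases h1 : x < 0 ∧ (N : ℤ) ∣ x
  · rw [if_pos h1]; right; rfl
  · rw [if_neg h1]; left; exact Int.emod_eq_zero_of_dvd (h.mul_left a)

theorem half_op {F : Type u} [Field F] [CharZero F] {m n : ℕ} [NeZero n]
    (b : Fin (n + 1) → ℤ[X]) (hb : b (Fin.last n) ≠ 0) (α : Fin m → F) (Q : Fin (n + 1) → F[X])
    (hF : IsFuchs b α Q) (N : ℕ) (hN : 1 < N) (e : Fin m → Fin n → ℤ) (f : Fin n → ℤ)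
    (hE : HasExps α Q (fun j l => (e j l : ℚ) / N) (fun l => (f l : ℚ) / N))
    {j0 j1 : Fin m} (h01 : j0 ≠ j1) (hint : ∀ j, j ≠ j0 → j ≠ j1 → ∀ l, (N : ℤ) ∣ e j l)
    (e' : Fin n → ℤ) (he' : ∀ l, e' l = f l + N * ((n - 1) * (m - 1) : ℕ))
    (a : ℤ) (hno : ¬ ∃ P₀ : ℕ, ∀ p : ℕ, P₀ < p → (N : ℤ) ∣ a * p + 1 → ∀ _hp : Fact p.Prime,
      ¬ FullMod b p) (m' : ℤ)
    (hm' : ∑ l, wI N a (e j0 l) + ∑ l, wI N a (e j1 l) - ∑ l, wI N a (e' l) = m' * N) :
    ∃ σ0 σ1 τ, Half N (e j0) (e j1) e' a m' σ0 σ1 τ := by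
  classical
  have hm : 0 < m := Fin.pos j0
  have hn : 0 < n := Nat.pos_of_ne_zero (NeZero.ne n)
  have hN0 : 0 < N := by omega
  have hN' : (0 : ℤ) < N := by exact_mod_cast hN0
  have hNq : (N : ℚ) ≠ 0 := by exact_mod_cast hN0.ne'
  choose σ hσ using fun j => exists_sortedI N a (e j)
  obtain ⟨τ, hτ⟩ := exists_sortedI N a e'
  have s0 := srt_wI hN0 (e := fun l => e j0 (σ j0 l)) (hσ j0)
  have s1 := srt_wI hN0 (e := fun l => e j1 (σ j1 l)) (hσ j1)
  have s2 := srt_wI hN0 (e := fun l => e' (τ l)) hτ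
  let M : ℤ := ∑ j, ∑ l, |e j (σ j l)| + ∑ l, |e' (τ l)|
  obtain ⟨P₀, hP₀⟩ := data_field hm hn b hb α Q hF _ _ hE N e f
    (fun j l => by field_simp) (fun l => by field_simp)
  push Not at hno
  obtain ⟨p, hpM, hap, hp, hfm⟩ := hno (max P₀ (8 * M).toNat)
  rw [max_lt_iff] at hpM
  have hpM' : 8 * M < p := by
    have h1 := Int.self_le_toNat (8 * M)
    have h2 : ((8 * M).toNat : ℤ) < p := by exact_mod_cast hpM.2
    linarith
  obtain ⟨K, iF, iA, iC, β, B, hβ, hB, hfull, hloc, hinf⟩ := hP₀ p hpM.1 hp hfm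
  have hinf' : RedExp N (infMat m B (cw m n)).charpoly e' := by
    have h1 : e' = fun l => f l + N * ((n - 1) * (m - 1) : ℕ) := funext he'
    rw [h1]; exact hinf
  have htr : ∑ j, ∑ l, e j (σ j l) + N * ∑ i, ((cw m n i : ℕ) : ℤ) = ∑ l, e' (τ l) := by
    have h1 := fuchs_int hm hn hF hE (N := N) (mu := e) (mu' := f)
      (fun j l => by field_simp) (fun l => by field_simp)
    rw [Finset.sum_congr rfl (fun j _ => Equiv.sum_comp (σ j) (fun l => e j l)), h1,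
      Equiv.sum_comp τ e']
    exact Finset.sum_congr rfl fun l _ => (he' l).symm
  have hex : ∀ j, ∃ (k : Fin n) (g : ℤ), j ≠ j0 → j ≠ j1 →
      ∑ l, wI N a (e j (σ j l)) + ((k : ℕ) : ℤ) * N = n * g * N ∧
        wI N a (e j (σ j k)) = g * N := by
    intro j
    by_cases h : j ≠ j0 ∧ j ≠ j1
    · obtain ⟨k, g, h1, h2⟩ := extra_r (w := fun l => wI N a (e j (σ j l))) (fun l l' hl => by
        rcases hσ j l l' hl with h3 | h3
        · exact h3.le
        · exact h3.1.le) hN' (fun l => wI_int (hint j h.1 h.2 _) a)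
      exact ⟨k, g, fun _ _ => ⟨h1, h2⟩⟩
    · refine ⟨⟨0, hn⟩, 0, fun h1 h2 => absurd ⟨h1, h2⟩ h⟩
  choose ki g hg using hex
  have hm2 : ∑ l, wI N a (e j0 (σ j0 l)) + ∑ l, wI N a (e j1 (σ j1 l)) -
      ∑ l, wI N a (e' (τ l)) = m' * N := by
    rw [Equiv.sum_comp (σ j0) (fun l => wI N a (e j0 l)),
      Equiv.sum_comp (σ j1) (fun l => wI N a (e j1 l)), Equiv.sum_comp τ (fun l => wI N a (e' l))]
    exact hm'
  obtain ⟨hA, hB'⟩ := ineqs_at2 hβ hB hfull hN hap (e := fun j l => e j (σ j l))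
    (e' := fun l => e' (τ l)) (fun j => redExp_perm (hloc j) (σ j)) (redExp_perm hinf' τ) htr
    (M := M) le_rfl hpM' hσ hτ h01 ki g hg m' hm2
  obtain ⟨k1, k2⟩ := half_abs hN0 s2 m' hA hB'
  exact ⟨σ j0, σ j1, τ, s0, s1, s2, k1, k2⟩

theorem good_op {F : Type u} [Field F] [CharZero F] {m n : ℕ} [NeZero n]
    (b : Fin (n + 1) → ℤ[X]) (hb : b (Fin.last n) ≠ 0) (α : Fin m → F) (Q : Fin (n + 1) → F[X])
    (hF : IsFuchs b α Q) (N : ℕ) (hN : 1 < N) (e : Fin m → Fin n → ℤ) (e2 : Fin n → ℤ)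
    (hE : HasExps α Q (fun j l => (e j l : ℚ) / N) (fun l => -(e2 l : ℚ) / N))
    {j0 j1 : Fin m} (h01 : j0 ≠ j1) (hint : ∀ j, j ≠ j0 → j ≠ j1 → ∀ l, (N : ℤ) ∣ e j l)
    (hno : ¬ ∃ a : ℤ, IsCoprime a (N : ℤ) ∧ ∃ P₀ : ℕ, ∀ p : ℕ, P₀ < p → (N : ℤ) ∣ a * p + 1 →
      ∀ _hp : Fact p.Prime, ¬ FullMod b p) (a : ℤ) (ha : IsCoprime a (N : ℤ)) :
    ∃ X Y C, Good N (e j0) (e j1) e2 a X Y C := by
  have hN0 : 0 < N := by omega
  have hm : 0 < m := Fin.pos j0
  have hn : 0 < n := Nat.pos_of_ne_zero (NeZero.ne n)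
  have hNq : (N : ℚ) ≠ 0 := by exact_mod_cast hN0.ne'
  set e' : Fin n → ℤ := fun l => -e2 l + N * ((n - 1) * (m - 1) : ℕ) with he'
  have hE' : HasExps α Q (fun j l => (e j l : ℚ) / N) (fun l => ((-e2 l : ℤ) : ℚ) / N) := by
    have : (fun l => ((-e2 l : ℤ) : ℚ) / N) = fun l => -(e2 l : ℚ) / N := by
      ext1 l; push_cast; ring
    rw [this]; exact hE
  have hfu : (N : ℤ) ∣ ∑ l, e j0 l + ∑ l, e j1 l - ∑ l, e' l := by
    have h1 := fuchs_int hm hn hF hE' (N := N) (mu := e) (mu' := fun l => -e2 l)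
      (fun j l => by field_simp) (fun l => by field_simp)
    rw [sum_others h01] at h1
    have h2 : (N : ℤ) ∣ ∑ j ∈ others j0 j1, ∑ l, e j l :=
      Finset.dvd_sum fun j hj => Finset.dvd_sum fun l _ =>
        hint j (mem_others.1 hj).1 (mem_others.1 hj).2 l
    have h3 : ∑ l, e j0 l + ∑ l, e j1 l - ∑ l, e' l =
        -(∑ j ∈ others j0 j1, ∑ l, e j l) - N * ∑ i, ((cw m n i : ℕ) : ℤ) := by
      simp only [he']
      linarith
    rw [h3]
    exact dvd_sub ((dvd_neg (α := ℤ)).2 h2) (Dvd.intro _ rfl)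
  have hex : ∀ a : ℤ, ∃ m' : ℤ,
      ∑ l, wI N a (e j0 l) + ∑ l, wI N a (e j1 l) - ∑ l, wI N a (e' l) = m' * N := by
    intro a
    have key : ∀ f : Fin n → ℤ, (N : ℤ) ∣ ∑ l, wI N a (f l) - a * ∑ l, f l := by
      intro f
      rw [Finset.mul_sum, ← Finset.sum_sub_distrib]
      exact Finset.dvd_sum fun l _ => wI_mod a _
    obtain ⟨t0, h2⟩ := key (e j0)
    obtain ⟨t1, h3⟩ := key (e j1)
    obtain ⟨t2, h4⟩ := key e'
    obtain ⟨t3, h5⟩ := hfu
    exact ⟨t0 + t1 - t2 + a * t3, by linear_combination h2 + h3 - h4 + a * h5⟩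
  obtain ⟨m1, hm1⟩ := hex a
  obtain ⟨m2, hm2⟩ := hex (-a)
  obtain ⟨σ0, σ1, τ, h1⟩ := half_op b hb α Q hF N hN e _ hE' h01 hint e' (fun l => rfl) a
    (fun h => hno ⟨a, ha, h⟩) m1 hm1
  obtain ⟨σ0', σ1', τ', h2⟩ := half_op b hb α Q hF N hN e _ hE' h01 hint e' (fun l => rfl) (-a)
    (fun h => hno ⟨-a, ha.neg_left, h⟩) m2 hm2
  obtain ⟨X, Y, C, hg⟩ := good_abs hN0 hm1 hm2 h1 h2
  refine ⟨X, Y, C, Good.congr hg fun l => ?_⟩
  simp only [he']
  refine ⟨-(((n - 1) * (m - 1) : ℕ) : ℤ), by ring⟩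

end Pool.Agent.TH829.PC
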