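import Pool.Agent.TH829.PC.Sym

set_option autoImplicit false
set_option maxHeartbeats 4000000

/-!
Third order Fuchsian operators with at most three singular points with non-integral exponents
(helper829).
-/

namespace Pool.Agent.TH829.PC

open Finset Polynomial Pool.Agent.W280.PC Pool.Agent.W432.WB
open Pool.Agent.W432.PC (wt lexLE)

universe u

lemma wI_div {N : ℕ} {x : ℤ} (h : (N : ℤ) ∣ x) (a : ℤ) : wI N a x = 0 ∨ wI N a x = N := by
  unfold wI
  by_cases h1 : x < 0 ∧ (N : ℤ) ∣ x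
  · rw [if_pos h1]; right; rfl
  · rw [if_neg h1]; left; exact Int.emod_eq_zero_of_dvd (h.mul_left a)

/-- the representatives of the exponents -/
def pt {m : ℕ} (N : ℕ) (E : Option (Fin m) → Fin 3 → ℤ) (e' : Fin 3 → ℤ) :
    Option (Fin m) → Fin 3 → ℤ
  | none => fun l => ng N (e' l)
  | some j => E (some j)

/-- the permutations -/
def sg {m : ℕ} (σ : Fin m → Equiv.Perm (Fin 3)) (τ : Equiv.Perm (Fin 3)) :
    Option (Fin m) → Equiv.Perm (Fin 3)
  | none => Fin.revPerm.trans τ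
  | some j => σ j

theorem third {F : Type u} [Field F] [CharZero F] {m : ℕ} (hm : 0 < m)
    (b : Fin (3 + 1) → ℤ[X]) (hb : b (Fin.last 3) ≠ 0) (α : Fin m → F) (Q : Fin (3 + 1) → F[X])
    (hF : IsFuchs b α Q) (N : ℕ) (hN : 1 < N) (E : Option (Fin m) → Fin 3 → ℤ)
    (hE : HasExps α Q (fun j l => (E (some j) l : ℚ) / N) (fun l => -(E none l : ℚ) / N))
    (P : Fin 3 ↪ Option (Fin m)) (hint : ∀ x, x ∉ Set.range P → ∀ l, (N : ℤ) ∣ E x l)
    (h1 : ∀ i l l', IsCoprime (E (P i) l - E (P i) l') (N : ℤ) ∨ (N : ℤ) ∣ E (P i) l - E (P i) l')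
    (h2 : ∀ κ : Fin 3 → Fin 3, IsCoprime (∑ i, E (P i) (κ i)) (N : ℤ)) :
    ∃ a : ℤ, IsCoprime a (N : ℤ) ∧ ∃ P₀ : ℕ, ∀ p : ℕ, P₀ < p → (N : ℤ) ∣ a * p + 1 →
      ∀ _hp : Fact p.Prime, ¬ FullMod b p := by
  classical
  by_contra hcon
  have hN0 : 0 < N := by omega
  have hN' : (0 : ℤ) < N := by exact_mod_cast hN0
  have hNq : (N : ℚ) ≠ 0 := by exact_mod_cast hN0.ne'
  set e' : Fin 3 → ℤ := fun l => -E none l + N * (2 * ((m - 1 : ℕ) : ℤ)) with he'
  -- sums over all points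
  have hsplit : ∀ f : Option (Fin m) → ℤ,
      ∑ x, f x = ∑ i, f (P i) + ∑ x ∈ (univ.map P)ᶜ, f x := by
    intro f
    rw [← Finset.sum_add_sum_compl (univ.map P) f, Finset.sum_map]
  have hmem : ∀ x, x ∈ (univ.map P)ᶜ → x ∉ Set.range P := by
    intro x h1 ⟨i, hi⟩
    rw [Finset.mem_compl] at h1
    exact h1 (Finset.mem_map.2 ⟨i, mem_univ _, hi⟩)
  -- no resonance
  have hres : ∀ (κ : Fin m → Fin 3) (s : Fin 3), ¬ (N : ℤ) ∣ ∑ j, E (some j) (κ j) - e' s := by
    intro κ s hdvd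
    set κ' : Option (Fin m) → Fin 3 := fun x => x.elim s κ with hκ'
    have e1 : ∑ x, E x (κ' x) = ∑ j, E (some j) (κ j) - e' s + N * (2 * ((m - 1 : ℕ) : ℤ)) := by
      rw [Fintype.sum_option]
      simp only [hκ', Option.elim, he']
      ring
    have e2 : (N : ℤ) ∣ ∑ x, E x (κ' x) := by
      rw [e1]; exact dvd_add hdvd (Dvd.intro _ rfl)
    rw [hsplit] at e2
    have e3 : (N : ℤ) ∣ ∑ x ∈ (univ.map P)ᶜ, E x (κ' x) :=
      Finset.dvd_sum fun x hx => hint x (hmem x hx) _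
    exact not_dvd_of_coprime hN (h2 (fun i => κ' (P i))) ((Int.dvd_add_left e3).1 e2)
  -- the representatives
  have hpt : ∀ x l, (N : ℤ) ∣ pt N E e' x l - E x l := by
    intro x l
    cases x with
    | none =>
      obtain ⟨c, hc⟩ := ng_mod N (e' l)
      refine ⟨c - 2 * ((m - 1 : ℕ) : ℤ), ?_⟩
      have e1 : pt N E e' none l = ng N (e' l) := rfl
      rw [e1, mul_sub, ← hc]
      simp only [he']
      ring
    | some j =>
      have e1 : pt N E e' (some j) l = E (some j) l := rfl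
      rw [e1]; simp
  set e1 : Fin 3 → ℤ := pt N E e' (P 0) with he1
  set e2 : Fin 3 → ℤ := pt N E e' (P 1) with he2
  set e3 : Fin 3 → ℤ := fun l => ng N (pt N E e' (P 2) l) with he3
  have r1 : ∀ l, (N : ℤ) ∣ e1 l - E (P 0) l := fun l => hpt _ l
  have r2 : ∀ l, (N : ℤ) ∣ e2 l - E (P 1) l := fun l => hpt _ l
  have r3 : ∀ l, (N : ℤ) ∣ e3 l + E (P 2) l := by
    intro l
    have := dvd_sub (ng_mod N (pt N E e' (P 2) l)) (hpt (P 2) l)
    rwa [show ng N (pt N E e' (P 2) l) + pt N E e' (P 2) l - (pt N E e' (P 2) l - E (P 2) l) =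
      e3 l + E (P 2) l by rw [he3]; ring] at this
  -- Fuchs' relation
  have hfuchs : (N : ℤ) ∣ ∑ x, ∑ l, E x l := by
    have hf := fuchs (by norm_num) hm hF.inj hF.last (fun i => hF.deg i) hE.1 hE.2
    refine ⟨3 * (2 * ((m - 1 : ℕ) : ℤ)) - ∑ i, ((cw m 3 i : ℕ) : ℤ), ?_⟩
    rw [Fintype.sum_option]
    have h4 : ∀ j, (N : ℚ) * ∑ l, (E (some j) l : ℚ) / N = ∑ l, (E (some j) l : ℚ) := by
      intro j
      rw [Finset.mul_sum]
      exact Finset.sum_congr rfl fun l _ => by field_simp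
    have h5 : ∀ l, (N : ℚ) * (-(E none l : ℚ) / N + (((3 - 1) * (m - 1) : ℕ) : ℚ)) =
      -(E none l : ℚ) + N * (((3 - 1) * (m - 1) : ℕ) : ℚ) := by
      intro l; field_simp
    have hL : (N : ℚ) * ∑ j, ∑ l, (E (some j) l : ℚ) / N = ∑ j, ∑ l, (E (some j) l : ℚ) := by
      rw [Finset.mul_sum]
      exact Finset.sum_congr rfl fun j _ => h4 j
    have hR : (N : ℚ) * ∑ l : Fin 3, (-(E none l : ℚ) / N + (((3 - 1) * (m - 1) : ℕ) : ℚ)) =
        -∑ l, (E none l : ℚ) + 3 * (N * (((3 - 1) * (m - 1) : ℕ) : ℚ)) := by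
      rw [Finset.mul_sum, Finset.sum_congr rfl (fun l _ => h5 l), Finset.sum_add_distrib,
        Finset.sum_neg_distrib]
      simp only [Finset.sum_const, Finset.card_univ, Fintype.card_fin, nsmul_eq_mul]
      norm_num
    have h3 : (N : ℚ) * (∑ j, ∑ l, (E (some j) l : ℚ) / N + ∑ i, ((cw m 3 i : ℕ) : ℚ)) =
      N * ∑ l : Fin 3, (-(E none l : ℚ) / N + (((3 - 1) * (m - 1) : ℕ) : ℚ)) := by
      rw [hf]
    rw [mul_add, hL, hR] at h3
    have h6 : ((∑ l, E none l + ∑ j, ∑ l, E (some j) l : ℤ) : ℚ) =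
      ((N * (3 * (2 * ((m - 1 : ℕ) : ℤ)) - ∑ i, ((cw m 3 i : ℕ) : ℤ)) : ℤ) : ℚ) := by
      push_cast at h3 ⊢
      linarith
    exact_mod_cast h6
  have hs : (N : ℤ) ∣ ∑ l, e1 l + ∑ l, e2 l - ∑ l, e3 l := by
    have a1 : (N : ℤ) ∣ ∑ l, e1 l - ∑ l, E (P 0) l := by
      rw [← Finset.sum_sub_distrib]; exact Finset.dvd_sum fun l _ => r1 l
    have a2 : (N : ℤ) ∣ ∑ l, e2 l - ∑ l, E (P 1) l := by
      rw [← Finset.sum_sub_distrib]; exact Finset.dvd_sum fun l _ => r2 l
    have a3 : (N : ℤ) ∣ ∑ l, e3 l + ∑ l, E (P 2) l := by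
      rw [← Finset.sum_add_distrib]; exact Finset.dvd_sum fun l _ => r3 l
    rw [hsplit, Fin.sum_univ_three] at hfuchs
    have a4 : (N : ℤ) ∣ ∑ x ∈ (univ.map P)ᶜ, ∑ l, E x l :=
      Finset.dvd_sum fun x hx => Finset.dvd_sum fun l _ => hint x (hmem x hx) l
    have a5 := (Int.dvd_add_left a4).1 hfuchs
    have a6 := dvd_add (dvd_sub (dvd_add a1 a2) a3) a5
    rwa [show ∑ l, e1 l - ∑ l, E (P 0) l + (∑ l, e2 l - ∑ l, E (P 1) l) -
      (∑ l, e3 l + ∑ l, E (P 2) l) + (∑ l, E (P 0) l + ∑ l, E (P 1) l + ∑ l, E (P 2) l) =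
      ∑ l, e1 l + ∑ l, e2 l - ∑ l, e3 l by ring] at a6
  have hx : (∃ i, ¬ (N : ℤ) ∣ e1 i) ∨ (∃ i, ¬ (N : ℤ) ∣ e2 i) ∨ (∃ i, ¬ (N : ℤ) ∣ e3 i) := by
    by_contra hall
    push Not at hall
    obtain ⟨u1, u2, u3⟩ := hall
    apply not_dvd_of_coprime hN (h2 (fun _ => 0))
    rw [Fin.sum_univ_three]
    have b1 : (N : ℤ) ∣ E (P 0) 0 := by
      have := dvd_sub (u1 0) (r1 0); rwa [sub_sub_cancel] at this
    have b2 : (N : ℤ) ∣ E (P 1) 0 := by
      have := dvd_sub (u2 0) (r2 0); rwa [sub_sub_cancel] at this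
    have b3 : (N : ℤ) ∣ E (P 2) 0 := by
      have := dvd_sub (r3 0) (u3 0); rwa [add_sub_cancel_left] at this
    exact dvd_add (dvd_add b1 b2) b3
  obtain ⟨f1, f2, f3, ⟨c1, w1⟩, ⟨c2, w2⟩, ⟨c3, w3⟩, hsum⟩ := adj hs hx
  have s1 : ∀ l, (N : ℤ) ∣ f1 l - E (P 0) l := fun l => by
    have := dvd_add (c1 l) (r1 l); rwa [sub_add_sub_cancel] at this
  have s2 : ∀ l, (N : ℤ) ∣ f2 l - E (P 1) l := fun l => by
    have := dvd_add (c2 l) (r2 l); rwa [sub_add_sub_cancel] at this
  have s3 : ∀ l, (N : ℤ) ∣ f3 l + E (P 2) l := fun l => by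
    have := dvd_add (c3 l) (r3 l)
    rwa [show f3 l - e3 l + (e3 l + E (P 2) l) = f3 l + E (P 2) l by ring] at this
  -- transfer of being prime to `N` or divisible by `N`
  have tr : ∀ {x y : ℤ}, (N : ℤ) ∣ x - y → (IsCoprime y (N : ℤ) ∨ (N : ℤ) ∣ y) →
      (IsCoprime x (N : ℤ) ∨ (N : ℤ) ∣ x) := by
    intro x y hxy h
    rcases h with h | h
    · exact Or.inl (cop_congr hxy h)
    · right
      have := dvd_add hxy h
      rwa [sub_add_cancel] at this
  refine arith3 hN hsum (fun l l' => ?_) (fun l l' => ?_) (fun l l' => ?_) (fun i j k => ?_)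
    (fun a ha => ?_)
  · refine tr ?_ (h1 0 l l')
    have := dvd_sub (s1 l) (s1 l')
    rwa [show f1 l - E (P 0) l - (f1 l' - E (P 0) l') =
      f1 l - f1 l' - (E (P 0) l - E (P 0) l') by ring] at this
  · refine tr ?_ (h1 1 l l')
    have := dvd_sub (s2 l) (s2 l')
    rwa [show f2 l - E (P 1) l - (f2 l' - E (P 1) l') =
      f2 l - f2 l' - (E (P 1) l - E (P 1) l') by ring] at this
  · refine tr ?_ (h1 2 l' l)
    have := dvd_sub (s3 l) (s3 l')
    rwa [show f3 l + E (P 2) l - (f3 l' + E (P 2) l') =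
      f3 l - f3 l' - (E (P 2) l' - E (P 2) l) by ring] at this
  · have := h2 ![i, j, k]
    rw [Fin.sum_univ_three] at this
    refine cop_congr ?_ this
    have := dvd_sub (dvd_add (s1 i) (s2 j)) (s3 k)
    simp only [Matrix.cons_val_zero, Matrix.cons_val_one, Matrix.cons_val_two, Matrix.head_cons,
      Matrix.tail_cons]
    rwa [show f1 i - E (P 0) i + (f2 j - E (P 1) j) - (f3 k + E (P 2) k) =
      f1 i + f2 j - f3 k - (E (P 0) i + E (P 1) j + E (P 2) k) by ring] at this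
  · have hUni : Uni3 N e1 e2 e3 a := by
      obtain ⟨σ, τ, m1, m2, hI⟩ := ineq_op hm (by norm_num) b hb α Q hF _ _ hE N hN
        (fun j => E (some j)) e' (fun j l => by field_simp) (fun l => by
          simp only [he']
          push_cast
          field_simp) a ha hres (fun h => hcon ⟨a, ha, h⟩)
      have hW : ∀ x, Monotone fun l => wI N a (pt N E e' x (sg σ τ x l)) := by
        intro x
        cases x with
        | none =>
          intro u v huv
          have e1 : ∀ l, wI N a (pt N E e' none (sg σ τ none l)) =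
              N - wI N a (e' (τ (Fin.rev l))) := fun l => wI_ng hN0 ha _
          have := m2 (Fin.rev_le_rev.2 huv)
          simp only [e1]
          simp only at this
          linarith
        | some j => exact m1 j
      have hsym : ∀ (M q : ℤ) (κ : Option (Fin m) → Fin 3),
          ∑ x, ∑ l, wI N a (pt N E e' x (sg σ τ x l)) = M * N →
          M + ∑ x, ((κ x : ℕ) : ℤ) = 3 * q + 2 →
          ∑ x, wI N a (pt N E e' x (sg σ τ x (κ x))) < q * N := by
        intro M q κ hM hq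
        have e0 : ∀ x, ∑ l, wI N a (pt N E e' x (sg σ τ x l)) = ∑ l, wI N a (pt N E e' x l) :=
          fun x => Equiv.sum_comp (sg σ τ x) (fun l => wI N a (pt N E e' x l))
        rw [Finset.sum_congr rfl (fun x _ => e0 x), Fintype.sum_option] at hM
        have e1 : ∀ l, wI N a (pt N E e' none l) = N - wI N a (e' l) := fun l => wI_ng hN0 ha _
        have e2 : ∀ j l, wI N a (pt N E e' (some j) l) = wI N a (E (some j) l) := fun j l => rfl
        simp only [e1, e2, Finset.sum_sub_distrib, Finset.sum_const, Finset.card_univ,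
          Fintype.card_fin, nsmul_eq_mul] at hM
        rw [Fintype.sum_option] at hq
        have h4 := hI (M - 3) (q - 1) (fun j => κ (some j)) (Fin.rev (κ none)) (by
          push_cast at hM
          linarith) (by
          have h5 : ((Fin.rev (κ none) : Fin 3) : ℕ) = 2 - (κ none : ℕ) := by
            rw [Fin.val_rev]; omega
          have h6 : (κ none : ℕ) ≤ 2 := by omega
          rw [h5]
          push_cast [Nat.cast_sub h6]
          linarith)
        rw [Fintype.sum_option]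
        have e3 : wI N a (pt N E e' none (sg σ τ none (κ none))) =
            N - wI N a (e' (τ (Fin.rev (κ none)))) := wI_ng hN0 ha _
        have e4 : ∀ j, wI N a (pt N E e' (some j) (sg σ τ (some j) (κ (some j)))) =
            wI N a (E (some j) (σ j (κ (some j)))) := fun j => rfl
        simp only [e3, e4]
        linarith
      have hred := reduce hN' hW hsym P (fun x hx l => wI_div (by
        have h5 := hpt x (sg σ τ x l)
        have h6 := hint x hx (sg σ τ x l)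
        have h7 := dvd_add h5 h6
        rwa [sub_add_cancel] at h7) a)
      refine uni3_of (f := pt N E e' (P 2)) (fun l => wI_ng hN0 ha _) (sg σ τ (P 0))
        (sg σ τ (P 1)) (sg σ τ (P 2)) (hW _) (hW _) (hW _) ?_
      intro M q i j k hM hq
      have h8 := hred M q ![i, j, k] (by
        rw [Fin.sum_univ_three, ← hM]
        have e0 : ∀ x, ∑ l, wI N a (pt N E e' x (sg σ τ x l)) = ∑ l, wI N a (pt N E e' x l) :=
          fun x => Equiv.sum_comp (sg σ τ x) (fun l => wI N a (pt N E e' x l))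
        rw [e0, e0, e0]) (by
        rw [Fin.sum_univ_three]
        simpa using hq)
      rw [Fin.sum_univ_three] at h8
      simpa using h8
    unfold Uni3 at hUni ⊢
    simpa only [w1, w2, w3] using hUni

end Pool.Agent.TH829.PC
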